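import Mathlib

/-!
# Tate classes on the powers of an abelian variety: definitions

`V` is the rational Tate module of an abelian variety `A`, with the action `ρ` of a group `Γ` (the Galois
group of the ground field), the character `χ` (the cyclotomic character) and the Weil pairing `ω` of a
polarization.
-/

namespace Pool.Agent.Y131

open Module TensorProduct

noncomputable section

section notions

variable {K X Γ : Type} [Field K] [AddCommGroup X] [Module K X] [Group Γ]

/-- The subspace is stable under a subgroup of finite index. -/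
def PotentiallyStable (R : Representation K Γ X) (U : Submodule K X) : Prop :=
  ∃ Δ : Subgroup Γ, Δ.FiniteIndex ∧ ∀ g ∈ Δ, ∀ u ∈ U, R g u ∈ U

/-- The strongly irreducible subspaces: the minimal nonzero potentially stable subspaces. -/
def StronglyIrreducible (R : Representation K Γ X) (U : Submodule K X) : Prop :=
  U ≠ ⊥ ∧ PotentiallyStable R U ∧ ∀ W ≤ U, PotentiallyStable R W → W = ⊥ ∨ W = U

/-- There is a nonzero pairing of `U` and `U'` on which a subgroup of finite index acts by `χ`. -/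
def AreDual (R : Representation K Γ X) (χ : Γ →* K) (U U' : Submodule K X) : Prop :=
  ∃ Δ : Subgroup Γ, Δ.FiniteIndex ∧ ∃ B : X →ₗ[K] X →ₗ[K] K, (∃ u ∈ U, ∃ v ∈ U', B u v ≠ 0) ∧
    ∀ g ∈ Δ, ∀ u ∈ U, ∀ v ∈ U', B (R g u) (R g v) = χ g * B u v

/-- There is a nonzero alternating pairing on `U` on which a subgroup of finite index acts by `χ`. -/
def IsSymplectic (R : Representation K Γ X) (χ : Γ →* K) (U : Submodule K X) : Prop :=
  ∃ Δ : Subgroup Γ, Δ.FiniteIndex ∧ ∃ B : X →ₗ[K] X →ₗ[K] K, (∃ u ∈ U, ∃ v ∈ U, B u v ≠ 0) ∧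
    (∀ u ∈ U, B u u = 0) ∧ ∀ g ∈ Δ, ∀ u ∈ U, ∀ v ∈ U, B (R g u) (R g v) = χ g * B u v

/-- There is a nonzero map from `U` to `U'` which is, over a subgroup of finite index, equivariant up
to the function `ψ`. -/
def HasTwistedMap (R : Representation K Γ X) (ψ : Γ → K) (U U' : Submodule K X) : Prop :=
  ∃ Δ : Subgroup Γ, Δ.FiniteIndex ∧ ∃ T : X →ₗ[K] X, (∀ u ∈ U, T u ∈ U') ∧ (∃ u ∈ U, T u ≠ 0) ∧
    ∀ g ∈ Δ, ∀ u ∈ U, T (R g u) = ψ g • R g (T u)

/-- The representation is semisimple as a representation of every subgroup of finite index. -/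
def PotentiallySemisimple (R : Representation K Γ X) : Prop :=
  ∀ Δ : Subgroup Γ, Δ.FiniteIndex → ∀ U : Submodule K X, (∀ s ∈ Δ, ∀ u ∈ U, R s u ∈ U) →
    ∃ U' : Submodule K X, (∀ s ∈ Δ, ∀ u ∈ U', R s u ∈ U') ∧ IsCompl U U'

/-- Strongly irreducible lines are not self-dual. -/
def NoSelfDualLines (R : Representation K Γ X) (χ : Γ →* K) : Prop :=
  ∀ U, StronglyIrreducible R U → finrank K U = 1 → ¬AreDual R χ U U

/-- A twist of a strongly irreducible subspace of dimension at least two, which is not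
self-dual, that occurs as a subspace is isomorphic to it. -/
def NoProperTwists (R : Representation K Γ X) (χ : Γ →* K) : Prop :=
  ∀ U U', StronglyIrreducible R U → StronglyIrreducible R U' → 2 ≤ finrank K U →
    ¬AreDual R χ U U → ∀ ψ : Γ → K, HasTwistedMap R ψ U U' → HasTwistedMap R (fun _ => 1) U U'

/-- The diagonal action on `X ^ n`. -/
def diagonal (R : Representation K Γ X) (n : ℕ) : Representation K Γ (Fin n → X) where
  toFun g := LinearMap.pi fun i => (R g).comp (LinearMap.proj i)
  map_one' := by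
    ext y i
    simp
  map_mul' g h := by
    ext y i
    simp

/-- The sum of the forms `ω` on `X ^ n`. -/
def sumForm (ω : X →ₗ[K] X →ₗ[K] K) (n : ℕ) : (Fin n → X) →ₗ[K] (Fin n → X) →ₗ[K] K :=
  ∑ i, ω.compl₁₂ (LinearMap.proj i) (LinearMap.proj i)

/-- A Tate form of degree two: an alternating bilinear form on which a subgroup of finite index
acts by `χ`. -/
def IsTateForm (R : Representation K Γ X) (χ : Γ →* K) (B : X →ₗ[K] X →ₗ[K] K) : Prop :=
  (∃ Δ : Subgroup Γ, Δ.FiniteIndex ∧ ∀ s ∈ Δ, ∀ u v, B (R s u) (R s v) = χ s * B u v) ∧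
    ∀ u, B u u = 0

/-- A family of strongly irreducible subspaces, never dual to each other, such that a subgroup of
finite index acts on the tensor product of their determinants through the power of `χ` whose
exponent is half of the sum of the dimensions. -/
def IsWeilFamily (R : Representation K Γ X) (χ : Γ →* K) {Q : Type} [Fintype Q]
    (L : Q → Submodule K X) : Prop :=
  (∀ q, StronglyIrreducible R (L q)) ∧ (∀ q q', ¬AreDual R χ (L q) (L q')) ∧
    ∃ (c : ℕ) (Δ : Subgroup Γ) (h : ∀ q, ∀ g ∈ Δ, ∀ u ∈ L q, R g u ∈ L q), Δ.FiniteIndex ∧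
      2 * c = ∑ q, finrank K (L q) ∧
      ∀ (g : Γ) (hg : g ∈ Δ), ∏ q, LinearMap.det ((R g).restrict (h q g hg)) = χ g ^ c

/-- The exterior product of the bilinear forms `B p` and of the linear forms `a s`. -/
def wedge {P S N : Type} [Fintype P] [Fintype S] [Fintype N] [DecidableEq N]
    (e : (P × Fin 2) ⊕ S ≃ N) (B : P → X →ₗ[K] X →ₗ[K] K) (a : S → X →ₗ[K] K) : (N → X) → K :=
  fun v => ∑ σ : Equiv.Perm N, ((Equiv.Perm.sign σ : ℤ) : K) *
    ((∏ p, B p (v (σ (e (Sum.inl (p, 0))))) (v (σ (e (Sum.inl (p, 1)))))) *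
      ∏ s, a s (v (σ (e (Sum.inr s)))))

/-- The exterior products, on `X ^ n`, of Tate forms `B p` of degree two and of the Weil classes of a
Weil family `L` in `X ^ n`: of the lines `Λ ^ max (L q)`, where `b q` is a basis of `L q` and a vector is
considered as a linear form by means of `sumForm ω n`. -/
def weilProducts (R : Representation K Γ X) (χ : Γ →* K) (ω : X →ₗ[K] X →ₗ[K] K) (n m : ℕ) :
    Set ((Fin m × Fin 2 → Fin n → X) → K) :=
  {g | ∃ (P Q : Type) (_ : Fintype P) (_ : Fintype Q) (d : Q → ℕ)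
    (L : Q → Submodule K (Fin n → X)) (b : ∀ q, Basis (Fin (d q)) K (L q))
    (e : (P × Fin 2) ⊕ (Σ q, Fin (d q)) ≃ Fin m × Fin 2)
    (B : P → (Fin n → X) →ₗ[K] (Fin n → X) →ₗ[K] K),
    (∀ p, IsTateForm (diagonal R n) χ (B p)) ∧ IsWeilFamily (diagonal R n) χ L ∧
    g = wedge e B (fun s => sumForm ω n (b s.1 s.2 : Fin n → X))}

end notions

section classes

variable {k V Γ : Type} [Field k] [AddCommGroup V] [Module k V] [Group Γ]

/-- The representation with coefficients extended to `K`. -/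
def extend (K : Type) [Field K] [Algebra k K] (ρ : Representation k Γ V) :
    Representation K Γ (K ⊗[k] V) where
  toFun s := (ρ s).baseChange K
  map_one' := by
    rw [map_one]
    exact LinearMap.baseChange_id
  map_mul' s t := by
    rw [map_mul]
    exact LinearMap.baseChange_comp _ _

/-- The character with values in `K`. -/
def extendChar (K : Type) [Field K] [Algebra k K] (χ : Γ →* k) : Γ →* K :=
  (algebraMap k K : k →* K).comp χ

/-- A class in `H^{2m}(A^n)(m)`, that is an alternating form `f` in `2 m` variables on `V ^ n`, is a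
Tate class if a subgroup of finite index fixes it. -/
def IsTateClass (ρ : Representation k Γ V) (χ : Γ →* k) {n m : ℕ}
    (f : (Fin n → V) [⋀^Fin m × Fin 2]→ₗ[k] k) : Prop :=
  ∃ Δ : Subgroup Γ, Δ.FiniteIndex ∧ ∀ s ∈ Δ, ∀ v : Fin m × Fin 2 → Fin n → V,
    f (fun l i => ρ s (v l i)) = χ s ^ m * f v

/-- A class in `H^2(A^n)(1)` which is fixed by a subgroup of finite index. -/
def IsTateClassTwo (ρ : Representation k Γ V) (χ : Γ →* k) {n : ℕ}
    (f : (Fin n → V) [⋀^Fin 2]→ₗ[k] k) : Prop :=
  ∃ Δ : Subgroup Γ, Δ.FiniteIndex ∧ ∀ s ∈ Δ, ∀ v : Fin 2 → Fin n → V,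
    f (fun l i => ρ s (v l i)) = χ s * f v

/-- On all powers `A ^ n` all Tate classes are linear combinations of cup products of Tate classes
of degree two. -/
def GeneratedInDegreeTwo (ρ : Representation k Γ V) (χ : Γ →* k) : Prop :=
  ∀ (n m : ℕ) (f : (Fin n → V) [⋀^Fin m × Fin 2]→ₗ[k] k), IsTateClass ρ χ f →
    f ∈ Submodule.span k {g : (Fin n → V) [⋀^Fin m × Fin 2]→ₗ[k] k |
      ∃ B : Fin m → (Fin n → V) [⋀^Fin 2]→ₗ[k] k, (∀ l, IsTateClassTwo ρ χ (B l)) ∧
        ∀ v, g v = ∑ σ : Equiv.Perm (Fin m × Fin 2), ((Equiv.Perm.sign σ : ℤ) : k) *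
          ∏ l, B l ![v (σ (l, 0)), v (σ (l, 1))]}

/-- On all powers `A ^ n` all Tate classes are, over the extension `K`, linear combinations of exterior
products of Tate classes of degree two and of Weil classes. -/
def GeneratedByWeilClasses (K : Type) [Field K] [Algebra k K] (ρ : Representation k Γ V)
    (χ : Γ →* k) (ω : V →ₗ[k] V →ₗ[k] k) : Prop :=
  ∀ (n m : ℕ) (f : (Fin n → V) [⋀^Fin m × Fin 2]→ₗ[k] k), IsTateClass ρ χ f →
    (fun v => algebraMap k K (f v)) ∈ Submodule.span K
      ((fun (g : (Fin m × Fin 2 → Fin n → K ⊗[k] V) → K) (v : Fin m × Fin 2 → Fin n → V) =>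
        g (fun l i => (1 : K) ⊗ₜ[k] v l i)) ''
          weilProducts (extend K ρ) (extendChar K χ) (LinearMap.BilinForm.baseChange K ω) n m)

/-- There is no nonempty Weil family. -/
def NoWeilFamilies {K X Γ : Type} [Field K] [AddCommGroup X] [Module K X] [Group Γ]
    (R : Representation K Γ X) (χ : Γ →* K) : Prop :=
  ∀ (Q : Type) [Fintype Q] [Nonempty Q] (L : Q → Submodule K X), ¬IsWeilFamily R χ L

end classes

end

end Pool.Agent.Y131
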