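import Mathlib
import Pool.Agent.Y131.Defs
import Pool.Agent.TH118.CU.Final

/-!
# From tensors over an algebraically closed field to Tate classes on all powers
-/

namespace Pool.Agent.Y131

open Module TensorProduct
open Pool.Agent.H204R3.SP Pool.Agent.H204R3.GP Pool.Agent.W522.U Pool.Agent.TH118.WC

variable {k V Γ : Type} [Field k] [CharZero k] [AddCommGroup V] [Module k V]
  [FiniteDimensional k V] [Group Γ]

/-- If all tensors over `K` are generated by products of forms and determinants. -/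
theorem pack (K : Type) [Field K] [CharZero K] [Algebra k K] (ρ : Representation k Γ V)
    (χ : Γ →* k) (ω : V →ₗ[k] V →ₗ[k] k) (halt : ∀ v, ω v v = 0)
    (hnondeg : ∀ u, (∀ v, ω v u = 0) → u = 0)
    (hω : ∀ s u v, ω (ρ s u) (ρ s v) = χ s * ω u v)
    (core : ∀ (m : ℕ) (φ : MultilinearMap K (fun _ : Fin m × Fin 2 => K ⊗[k] V) K),
      IsTate (bcr ρ K) (bcc χ K) m φ →
      φ ∈ Submodule.span K (DetProd (bcr ρ K) (bcc χ K) m)) :
    GeneratedByWeilClasses K ρ χ ω ∧
      (NoWeilFamilies (extend K ρ) (extendChar K χ) → GeneratedInDegreeTwo ρ χ) := by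
  have hl1 : ∀ u, (∀ v, bcb K ω u v = 0) → u = 0 := fun u hu =>
    bcb_nondeg_left ω hnondeg (left_nondeg ω halt hnondeg) u hu
  have hinv := bcb_inv (Ω := K) ρ χ ω hω
  refine ⟨fun n m f hf => ?_, fun hno => ?_⟩
  · refine Submodule.span_mono (Set.image_mono ?_)
      (classes_of_tensors K ρ χ (bcb _ ω) hl1 hinv (core m) f hf)
    rintro g ⟨P, Q, hP, hQ, d, L, b, e, B, hB, hB0, ⟨hL1, hL2, hL3⟩, rfl⟩
    exact ⟨P, Q, hP, hQ, d, L, b, e, B, fun p => ⟨hB p, hB0 p⟩, ⟨hL1, hL2, hL3⟩, rfl⟩
  · have h := generated_of_ext ρ χ K fun m φ hφ => ?_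
    · intro n m f hf
      refine Submodule.span_mono ?_ (h n m f hf)
      rintro g ⟨B, hB, hg⟩
      refine ⟨B, fun l => ?_, hg⟩
      obtain ⟨Δ, hΔ, h1⟩ := hB l
      refine ⟨Δ, hΔ, fun s hs v => ?_⟩
      have h2 := h1 s hs v
      rwa [pow_one] at h2
    · refine Submodule.span_mono ?_ (core m φ hφ)
      rintro ψ ⟨P, Q, hP, hQ, U, f, e, B, C, hB, hC, hU, hnd, hdet, hψ⟩
      have hemp : IsEmpty Q := by
        by_contra hne
        rw [not_isEmpty_iff] at hne
        exact hno Q U ⟨hU, hnd, hdet⟩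
      have hcard : Fintype.card P = m := by
        have h1 := Fintype.card_congr e
        rw [Fintype.card_sum, Fintype.card_prod, Fintype.card_prod, Fintype.card_fin,
          Fintype.card_fin, Fintype.card_sigma, Finset.univ_eq_empty, Finset.sum_empty] at h1
        omega
      let ε : Fin m ≃ P := (Fintype.equivFinOfCardEq hcard).symm
      let σ : Equiv.Perm (Fin m × Fin 2) :=
        ((ε.prodCongr (Equiv.refl (Fin 2))).trans (Equiv.sumEmpty _ _).symm).trans e
      refine ⟨σ, fun s => B (ε s), fun s => hB _, ?_⟩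
      refine MultilinearMap.ext fun v => ?_
      rw [mmG_apply, hψ, Finset.univ_eq_empty (α := Q), Finset.prod_empty, mul_one]
      exact (Fintype.prod_equiv ε _ _ fun s => rfl).symm

end Pool.Agent.Y131
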