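import Mathlib
import Pool.Agent.TH118.IS.Two

/-!
# Enlarging the group by an automorphism that is a symmetry of all Tate tensors
-/

set_option linter.unusedSectionVars false

namespace Pool.Agent.Y131.SL

open Module Pool.Agent.H204R3.SP Pool.Agent.H204R3.GP Pool.Agent.W522.U Pool.Agent.TH118.WC
open Pool.Agent.TH118.CR Pool.Agent.TH118.CU Pool.Agent.TH118.IS

variable {K : Type} [Field K] [CharZero K] {X : Type} [AddCommGroup X] [Module K X]
  [FiniteDimensional K X] {Γ : Type} [Group Γ]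

/-- The free product with an infinite cyclic group. -/
abbrev Big (Γ : Type) [Group Γ] : Type := Monoid.Coprod Γ (Multiplicative ℤ)

/-- The representation of the free product. -/
noncomputable def bigR (R : Representation K Γ X) (s : (End K X)ˣ) : Representation K (Big Γ) X :=
  Monoid.Coprod.lift R ((Units.coeHom (End K X)).comp (zpowersHom (End K X)ˣ s))

/-- The retraction to `Γ`. -/
def ret (Γ : Type) [Group Γ] : Big Γ →* Γ := Monoid.Coprod.fst

/-- The additional generator. -/
def gen (Γ : Type) [Group Γ] : Big Γ := Monoid.Coprod.inr (Multiplicative.ofAdd 1)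

theorem bigR_inl (R : Representation K Γ X) (s : (End K X)ˣ) (g : Γ) :
    bigR R s (Monoid.Coprod.inl g) = R g := by
  rw [bigR, Monoid.Coprod.lift_apply_inl]

theorem bigR_inr (R : Representation K Γ X) (s : (End K X)ˣ) (n : Multiplicative ℤ) :
    bigR R s (Monoid.Coprod.inr n) = ((s ^ (Multiplicative.toAdd n) : (End K X)ˣ) : End K X) := by
  rw [bigR, Monoid.Coprod.lift_apply_inr]
  rfl

theorem bigR_gen (R : Representation K Γ X) (s : (End K X)ˣ) : bigR R s (gen Γ) = s := by
  rw [gen, bigR_inr]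
  simp

theorem ret_inl (g : Γ) : ret Γ (Monoid.Coprod.inl g) = g := Monoid.Coprod.fst_apply_inl g

theorem ret_inr (n : Multiplicative ℤ) : ret Γ (Monoid.Coprod.inr n) = 1 :=
  Monoid.Coprod.fst_apply_inr n

variable {R : Representation K Γ X} {χ : Γ →* K} {s : (End K X)ˣ}

theorem Rmul (g : Γ) : R g * R g⁻¹ = 1 := by rw [← map_mul, mul_inv_cancel, map_one]

theorem Rmul' (g : Γ) : R g⁻¹ * R g = 1 := by rw [← map_mul, inv_mul_cancel, map_one]

/-- Every element of the big group acts as an element of `Γ` up to an operator with the property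
`P`. -/
theorem big_ind (P : End K X → Prop) (h1 : P 1) (hmul : ∀ a b, P a → P b → P (a * b))
    (hconj : ∀ g a, P a → P (R g * a * R g⁻¹)) (hs : P s) (hs' : P ((s⁻¹ : (End K X)ˣ) : End K X))
    (g : Big Γ) : P (bigR R s g * R (ret Γ g)⁻¹) := by
  have hpow : ∀ n : ℕ, P ((s ^ n : (End K X)ˣ) : End K X) := by
    intro n
    induction n with
    | zero => simpa using h1
    | succ n ih =>
      rw [pow_succ, Units.val_mul]
      exact hmul _ _ ih hs
  have hpow' : ∀ n : ℕ, P (((s⁻¹) ^ n : (End K X)ˣ) : End K X) := by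
    intro n
    induction n with
    | zero => simpa using h1
    | succ n ih =>
      rw [pow_succ, Units.val_mul]
      exact hmul _ _ ih hs'
  induction g using Monoid.Coprod.induction_on with
  | inl g => rwa [bigR_inl, ret_inl, Rmul]
  | inr n =>
    rw [bigR_inr, ret_inr, inv_one, map_one, mul_one]
    rcases Int.eq_nat_or_neg (Multiplicative.toAdd n) with ⟨k, h | h⟩
    · rw [h, zpow_natCast]
      exact hpow k
    · rw [h, zpow_neg, zpow_natCast, ← inv_pow]
      exact hpow' k
  | mul g h hg hh =>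
    have h2 : bigR R s (g * h) * R (ret Γ (g * h))⁻¹ =
        (bigR R s g * R (ret Γ g)⁻¹) * (R (ret Γ g) * (bigR R s h * R (ret Γ h)⁻¹) *
          R (ret Γ g)⁻¹) := by
      rw [map_mul, map_mul, mul_inv_rev, map_mul]
      have h3 := Rmul' (R := R) (ret Γ g)
      calc bigR R s g * bigR R s h * (R (ret Γ h)⁻¹ * R (ret Γ g)⁻¹)
          = bigR R s g * 1 * bigR R s h * R (ret Γ h)⁻¹ * R (ret Γ g)⁻¹ := by
            rw [mul_one]
            noncomm_ring
        _ = _ := by
            rw [← h3]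
            noncomm_ring
    rw [h2]
    exact hmul _ _ hg (hconj _ _ hh)

/-- The automorphism `s` preserves all potentially stable subspaces. -/
def PresPot (R : Representation K Γ X) (s : End K X) : Prop :=
  ∀ U, Pot R U → ∀ u ∈ U, s u ∈ U

/-- The automorphism `s` preserves all Tate tensors. -/
def PresTate (R : Representation K Γ X) (χ : Γ →* K) (s : End K X) : Prop :=
  ∀ (m : ℕ) (φ : MultilinearMap K (fun _ : Fin m × Fin 2 => X) K), IsTate R χ m φ →
    ∀ v, φ (fun l => s (v l)) = φ v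

theorem fi_comap {G G' : Type} [Group G] [Group G'] (f : G →* G') (Δ : Subgroup G')
    (h : Δ.FiniteIndex) : (Δ.comap f).FiniteIndex := by
  constructor
  rw [Subgroup.index_comap]
  intro h0
  exact h.index_ne_zero (Subgroup.index_eq_zero_of_relIndex_eq_zero h0)

theorem presPot_conj {t : End K X} (h : PresPot R t) (g : Γ) : PresPot R (R g * t * R g⁻¹) := by
  intro U hU u hu
  have h1 : R g⁻¹ u ∈ U.map (R g⁻¹) := Submodule.mem_map_of_mem hu
  obtain ⟨w, hw, hw'⟩ := h _ (hU.mapR g⁻¹) _ h1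
  rw [Module.End.mul_apply, Module.End.mul_apply, ← hw', Rinv']
  exact hw

theorem isTate_comp {m : ℕ} {φ : MultilinearMap K (fun _ : Fin m × Fin 2 => X) K}
    (hφ : IsTate R χ m φ) (s : Γ) : IsTate R χ m (φ.compLinearMap (fun _ => R s)) := by
  obtain ⟨Δ, hΔ, hφ⟩ := hφ
  refine ⟨Δ.comap (MulAut.conj s).toMonoidHom, ⟨by
    rw [Subgroup.index_comap_of_surjective _ (MulAut.conj s).surjective]
    exact hΔ.index_ne_zero⟩, fun t ht v => ?_⟩
  have h1 : s * t * s⁻¹ ∈ Δ := by
    rw [Subgroup.mem_comap] at ht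
    exact ht
  have h2 := hφ _ h1 (fun k => R s (v k))
  change φ (fun k => R s (R t (v k))) = χ t ^ m * φ (fun k => R s (v k))
  have h3 : ∀ k, R (s * t * s⁻¹) (R s (v k)) = R s (R t (v k)) := by
    intro k
    rw [map_mul, map_mul, Module.End.mul_apply, Module.End.mul_apply, Rinv]
  have h4 : χ (s * t * s⁻¹) = χ t := by
    rw [map_mul, map_mul, mul_right_comm, ← map_mul, mul_inv_cancel, map_one, one_mul]
  simp only [h3, h4] at h2
  exact h2

theorem presTate_conj {t : End K X} (h : PresTate R χ t) (g : Γ) :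
    PresTate R χ (R g * t * R g⁻¹) := by
  intro m φ hφ v
  have h1 := h m _ (isTate_comp hφ g) (fun l => R g⁻¹ (v l))
  simp only [MultilinearMap.compLinearMap_apply, Rinv'] at h1
  exact h1

theorem bigR_apply (g : Big Γ) (u : X) :
    bigR R s g u = (bigR R s g * R (ret Γ g)⁻¹) (R (ret Γ g) u) := by
  rw [Module.End.mul_apply, Rinv]

variable (hP : PresPot R s) (hP' : PresPot R ((s⁻¹ : (End K X)ˣ) : End K X))

include hP hP' in
theorem pot_big {U : Submodule K X} : Pot (bigR R s) U ↔ Pot R U := by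
  constructor
  · rintro ⟨Δ, hΔ, h⟩
    refine ⟨Δ.comap Monoid.Coprod.inl, fi_comap _ Δ hΔ, fun g hg u hu => ?_⟩
    have h1 := h _ hg u hu
    rwa [bigR_inl] at h1
  · intro hU
    obtain ⟨Δ, hΔ, h⟩ := id hU
    refine ⟨Δ.comap (ret Γ), fi_comap _ Δ hΔ, fun g hg u hu => ?_⟩
    rw [bigR_apply]
    refine big_ind (R := R) (PresPot R) (fun U _ u hu => hu) (fun a b ha hb U hU u hu => ?_)
      (fun g a ha => presPot_conj ha g) hP hP' g U hU _ (h _ hg u hu)
    exact ha U hU _ (hb U hU u hu)

include hP hP' in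
theorem si_big {U : Submodule K X} : SI (bigR R s) U ↔ SI R U := by
  unfold SI
  rw [pot_big hP hP']
  constructor
  · rintro ⟨h1, h2, h3⟩
    exact ⟨h1, h2, fun W hW hp => h3 W hW ((pot_big hP hP').2 hp)⟩
  · rintro ⟨h1, h2, h3⟩
    exact ⟨h1, h2, fun W hW hp => h3 W hW ((pot_big hP hP').1 hp)⟩

variable (hT : PresTate R χ s) (hT' : PresTate R χ ((s⁻¹ : (End K X)ˣ) : End K X))

/-- The character of the big group. -/
def bigχ (χ : Γ →* K) : Big Γ →* K := χ.comp (ret Γ)

theorem bigχ_inl (g : Γ) : bigχ χ (Monoid.Coprod.inl g) = χ g := by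
  rw [bigχ, MonoidHom.comp_apply, ret_inl]

theorem bigχ_gen : bigχ χ (gen Γ) = 1 := by
  rw [bigχ, MonoidHom.comp_apply, gen, ret_inr, map_one]

include hT hT' in
theorem tate_big {m : ℕ} {φ : MultilinearMap K (fun _ : Fin m × Fin 2 => X) K} :
    IsTate (bigR R s) (bigχ χ) m φ ↔ IsTate R χ m φ := by
  constructor
  · rintro ⟨Δ, hΔ, h⟩
    refine ⟨Δ.comap Monoid.Coprod.inl, fi_comap _ Δ hΔ, fun g hg v => ?_⟩
    have h1 := h _ hg v
    rwa [bigR_inl, bigχ_inl] at h1
  · intro hφ
    obtain ⟨Δ, hΔ, h⟩ := id hφ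
    refine ⟨Δ.comap (ret Γ), fi_comap _ Δ hΔ, fun g hg v => ?_⟩
    have h1 := big_ind (R := R) (s := s) (PresTate R χ) (fun _ _ _ _ => rfl)
      (fun a b ha hb m φ hφ v => by
        have h2 := ha m φ hφ (fun l => b (v l))
        have h3 := hb m φ hφ v
        rw [← h3, ← h2]
        rfl)
      (fun g a ha => presTate_conj ha g) hT hT' g m φ hφ (fun l => R (ret Γ g) (v l))
    have h2 : (fun l => bigR R s g (v l)) =
        fun l => (bigR R s g * R (ret Γ g)⁻¹) (R (ret Γ g) (v l)) := by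
      funext l
      exact bigR_apply g (v l)
    rw [h2, h1]
    exact h _ hg v

include hT hT' in
theorem lieT_big : lieT (bigR R s) (bigχ χ) = lieT R χ := by
  ext Y
  constructor
  · intro h m φ hφ
    exact h m φ ((tate_big hT hT').2 hφ)
  · intro h m φ hφ
    exact h m φ ((tate_big hT hT').1 hφ)

/-- The pairing. -/
theorem pairing_big {ω : X →ₗ[K] X →ₗ[K] K}
    (hωR : ∀ g u v, ω (R g u) (R g v) = χ g * ω u v) (hs : ∀ u v, ω ((s : End K X) u) ((s : End K X) v) = ω u v)
    (hs' : ∀ u v, ω (((s⁻¹ : (End K X)ˣ) : End K X) u) (((s⁻¹ : (End K X)ˣ) : End K X) v) = ω u v)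
    (g : Big Γ) (u v : X) : ω (bigR R s g u) (bigR R s g v) = bigχ χ g * ω u v := by
  have h1 := big_ind (R := R) (s := s) (fun t => ∀ u v, ω (t u) (t v) = ω u v) (fun _ _ => rfl)
    (fun a b ha hb u v => by
      rw [Module.End.mul_apply, Module.End.mul_apply, ha, hb])
    (fun g a ha u v => by
      rw [Module.End.mul_apply, Module.End.mul_apply, Module.End.mul_apply, Module.End.mul_apply,
        hωR, ha, ← hωR, Rinv', Rinv']) hs hs' g (R (ret Γ g) u) (R (ret Γ g) v)
  rw [bigR_apply g u, bigR_apply g v, h1, hωR]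
  rfl

end Pool.Agent.Y131.SL
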