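import Mathlib
import Pool.Agent.TH118.IS.Two

/-!
# Tate classes and elements of finite order with isolated eigenvalue ratios, all types together
-/

set_option linter.unusedSectionVars false

namespace Pool.Agent.Y131.FI

open Module Pool.Agent.H204R3.SP Pool.Agent.H204R3.GP Pool.Agent.W522.U Pool.Agent.TH118.WC
open Pool.Agent.TH118.CR Pool.Agent.TH118.CU Pool.Agent.W529.Ta Pool.Agent.W528.Odd
open Pool.Agent.TH118.IS
open Pool.Agent.W528.Tor (AltDual)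

section defs

variable {K : Type} [Field K] {X : Type} [AddCommGroup X] [Module K X]
  {Γ : Type} [Group Γ] (R : Representation K Γ X) (χ : Γ →* K) {I : Type} (E : I → Submodule K X)

/-- Isolated pairs; geometric progressions of length three are allowed on spaces `E j` which are not
isotropic only. -/
def SplitsSp (ω : X →ₗ[K] X →ₗ[K] K) (γ : Γ) (i : I) : Prop :=
  ∃ A : Set K, (∃ α ∈ A, eig R γ (E i) α ≠ ⊥) ∧ (∃ β ∉ A, eig R γ (E i) β ≠ ⊥) ∧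
    (∀ α, eig R γ (E i) α ≠ ⊥ → (α ∈ A ↔ χ γ * α⁻¹ ∈ A)) ∧
    ∀ α ∈ A, ∀ β ∉ A, eig R γ (E i) α ≠ ⊥ → eig R γ (E i) β ≠ ⊥ →
      (finrank K (eig R γ (E i) α) = 1 ∨ finrank K (eig R γ (E i) β) = 1) ∧
      (∀ α', eig R γ (E i) α' ≠ ⊥ → eig R γ (E i) (α' * (β * α⁻¹)) ≠ ⊥ →
        α' = α ∨ α' * β = χ γ) ∧
      ∀ j α', eig R γ (E j) α' ≠ ⊥ → eig R γ (E j) (α' * (β * α⁻¹)) ≠ ⊥ →
        eig R γ (E j) (α' * (β * α⁻¹) * (β * α⁻¹)) ≠ ⊥ →
        (∃ u ∈ E j, ∃ v ∈ E j, ω u v ≠ 0) ∧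
        finrank K (eig R γ (E j) α') = 1 ∧ α' * (α' * (β * α⁻¹) * (β * α⁻¹)) = χ γ

end defs

variable {K : Type} [Field K] [CharZero K] [IsAlgClosed K] {X : Type} [AddCommGroup X]
  [Module K X] [FiniteDimensional K X] {Γ : Type} [Group Γ] {R : Representation K Γ X}
  {χ : Γ →* K} {I : Type} {E : I → Submodule K X}

/-- Isolated pairs give a nilpotent element of the Lie algebra, of rank at most two on `E i`. -/
theorem iso_N3 {ω : X →ₗ[K] X →ₗ[K] K} (halt : ∀ v, ω v v = 0)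
    (hωR : ∀ g u v, ω (R g u) (R g v) = χ g * ω u v)
    (hSIj : ∀ j, SI R (E j)) (hE : ⨆ j, E j = ⊤)
    (hst : ∀ j, ∀ Y ∈ lieT R χ, ∀ u ∈ E j, Y u ∈ E j) {γ : Γ} {k : ℕ} (hk : 0 < k)
    (hγ : R γ ^ k = 1) (hγE : ∀ j, ∀ u ∈ E j, R γ u ∈ E j) (i : I)
    (hni : ∃ u ∈ E i, ∃ v ∈ E i, ω u v ≠ 0)
    (hns : ∃ Y ∈ lieT R χ, ¬∃ a : K, ∀ u ∈ E i, Y u = a • u)
    (hiso : SplitsSp R χ E ω γ i) :
    ∃ N ∈ lieT R χ, N * N = 0 ∧ (E i).map N ≠ ⊥ ∧ finrank K ((E i).map N) ≤ 2 := by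
  have hnd' : ∀ j, (∃ u ∈ E j, ∃ v ∈ E j, ω u v ≠ 0) →
      ∀ u ∈ E j, (∀ v ∈ E j, ω u v = 0) → u = 0 := fun j h =>
    du_left (hSIj j) (hSIj j).2.1 (Δ := ⊤) inferInstance h (fun g _ u _ v _ => hωR g u v)
  have hndE := hnd' i hni
  have hSI := hSIj i
  obtain ⟨A, hA, hB, hdual, h1⟩ := hiso
  have hγE' : ∀ j, ∀ u ∈ E j, R γ⁻¹ u ∈ E j := fun j => inv_stable hk hγ (hγE j)
  have hχ : χ γ ≠ 0 := χne γ
  -- the rank
  have hrk : ∀ α ∈ A, ∀ β ∉ A, eig R γ (E i) α ≠ ⊥ → eig R γ (E i) β ≠ ⊥ → ∀ T : End K X,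
      (∀ u ∈ E i, T u ∈ E i) →
      (finrank K ((part R γ (E i) A).map (avg R γ k (β * α⁻¹) T)) ≤ 1 ∧
      finrank K ((part R γ (E i) Aᶜ).map (avg R γ k (β * α⁻¹) T)) ≤ 1) ∧
      (finrank K ((part R γ (E i) A).map (avg R γ k (α * β⁻¹) T)) ≤ 1 ∧
      finrank K ((part R γ (E i) Aᶜ).map (avg R γ k (α * β⁻¹) T)) ≤ 1) := by
    intro α hα β hβ hα0 hβ0 T hT
    obtain ⟨hl, huniq, -⟩ := h1 α hα β hβ hα0 hβ0
    have hα1 := eig_ne hα0
    have hβ1 := eig_ne hβ0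
    have hαk := eig_root hγ hα0
    have hβk := eig_root hγ hβ0
    have hν : (β * α⁻¹) ^ k = 1 := by rw [mul_pow, inv_pow, hαk, hβk, inv_one, mul_one]
    have hν' : (α * β⁻¹) ^ k = 1 := by rw [mul_pow, inv_pow, hαk, hβk, inv_one, mul_one]
    have hν0 : β * α⁻¹ ≠ 0 := mul_ne_zero hβ1 (inv_ne_zero hα1)
    have hν0' : α * β⁻¹ ≠ 0 := mul_ne_zero hα1 (inv_ne_zero hβ1)
    have hdα := finrank_dual hωR hk hγ (hγE i) hndE hα1
    have hdβ := finrank_dual hωR hk hγ (hγE i) hndE hβ1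
    have hβA : χ γ * β⁻¹ ∉ A := fun h => hβ ((hdual β hβ0).2 h)
    have hαA : χ γ * α⁻¹ ∈ A := (hdual α hα0).1 hα
    have hsol : ∀ x y : K, y ≠ 0 → x * y = χ γ → x = χ γ * y⁻¹ := by
      intro x y hy h
      rw [← h, mul_inv_cancel_right₀ hy]
    have huniq' : ∀ α', eig R γ (E i) α' ≠ ⊥ → eig R γ (E i) (α' * (α * β⁻¹)) ≠ ⊥ →
        α' = β ∨ α' = χ γ * α⁻¹ := by
      intro α' h2 h3
      have e3 : α' * (α * β⁻¹) * (β * α⁻¹) = α' := by field_simp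
      rcases huniq (α' * (α * β⁻¹)) h3 (by rwa [e3]) with h4 | h4
      · left
        rw [← e3, h4]
        field_simp
      · right
        refine hsol _ _ hα1 ?_
        rw [← h4]
        field_simp
    refine ⟨⟨?_, ?_⟩, ?_, ?_⟩
    · refine finrank_part hγ (hγE i) (hγE' i) hT hν hν0 (a := α) (fun α' hα' h2 h3 => ?_) ?_
      · rcases huniq α' h2 h3 with h4 | h4
        · exact h4
        · exact absurd hα' (by rw [hsol _ _ hβ1 h4]; exact hβA)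
      · rw [show α * (β * α⁻¹) = β by field_simp]
        rcases hl with h | h
        · exact Or.inl h.le
        · exact Or.inr h.le
    · refine finrank_part hγ (hγE i) (hγE' i) hT hν hν0 (a := χ γ * β⁻¹) (fun α' hα' h2 h3 => ?_) ?_
      · rcases huniq α' h2 h3 with h4 | h4
        · exact absurd (by rw [h4]; exact hα) hα'
        · exact hsol _ _ hβ1 h4
      · rw [show χ γ * β⁻¹ * (β * α⁻¹) = χ γ * α⁻¹ by field_simp, hdα, hdβ]
        rcases hl with h | h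
        · exact Or.inr h.le
        · exact Or.inl h.le
    · refine finrank_part hγ (hγE i) (hγE' i) hT hν' hν0' (a := χ γ * α⁻¹)
        (fun α' hα' h2 h3 => ?_) ?_
      · rcases huniq' α' h2 h3 with h4 | h4
        · exact absurd hα' (by rw [h4]; exact hβ)
        · exact h4
      · rw [show χ γ * α⁻¹ * (α * β⁻¹) = χ γ * β⁻¹ by field_simp, hdα, hdβ]
        rcases hl with h | h
        · exact Or.inl h.le
        · exact Or.inr h.le
    · refine finrank_part hγ (hγE i) (hγE' i) hT hν' hν0' (a := β) (fun α' hα' h2 h3 => ?_) ?_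
      · rcases huniq' α' h2 h3 with h4 | h4
        · exact h4
        · exact absurd (by rw [h4]; exact hαA) hα'
      · rw [show β * (α * β⁻¹) = α by field_simp]
        rcases hl with h | h
        · exact Or.inr h.le
        · exact Or.inl h.le
  obtain ⟨α, hα, β, hβ, hα0, hβ0, Y, hY, hor⟩ := split' hSI (lieT R χ)
    (fun g Y hY => lieT_conj R χ g hY) (hst i) hns hk hγ (hγE i) (hγE' i) A hA hB
    (fun α hα β hβ h2 h3 T hT P hP => by
      have h4 := hrk α hα β hβ h2 h3 T hT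
      rcases hP with rfl | rfl
      · exact ⟨h4.1.1, h4.2.1⟩
      · exact ⟨h4.1.2, h4.2.2⟩)
  have hα1 := eig_ne hα0
  have hβ1 := eig_ne hβ0
  have hαk := eig_root hγ hα0
  have hβk := eig_root hγ hβ0
  have hν : (β * α⁻¹) ^ k = 1 := by rw [mul_pow, inv_pow, hαk, hβk, inv_one, mul_one]
  have hν' : (α * β⁻¹) ^ k = 1 := by rw [mul_pow, inv_pow, hαk, hβk, inv_one, mul_one]
  have hν0 : β * α⁻¹ ≠ 0 := mul_ne_zero hβ1 (inv_ne_zero hα1)
  have hν0' : α * β⁻¹ ≠ 0 := mul_ne_zero hα1 (inv_ne_zero hβ1)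
  have hch := fun j => (h1 α hα β hβ hα0 hβ0).2.2 j
  have h4 := hrk α hα β hβ hα0 hβ0 Y (hst i Y hY)
  have hsq : ∀ ν : K, ν ^ k = 1 → ν ≠ 0 → (∀ j α', eig R γ (E j) α' ≠ ⊥ →
      eig R γ (E j) (α' * ν) ≠ ⊥ → eig R γ (E j) (α' * ν * ν) ≠ ⊥ →
      (∃ u ∈ E j, ∃ v ∈ E j, ω u v ≠ 0) ∧
      finrank K (eig R γ (E j) α') = 1 ∧ α' * (α' * ν * ν) = χ γ) →
      avg R γ k ν Y * avg R γ k ν Y = 0 := by
    intro ν h2 h3 h4
    rw [← LinearMap.ker_eq_top, eq_top_iff, ← hE, iSup_le_iff]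
    intro j u hu
    rw [LinearMap.mem_ker, Module.End.mul_apply]
    by_cases hj : ∃ u ∈ E j, ∃ v ∈ E j, ω u v ≠ 0
    · exact sq_zero_of_dual halt hωR hk hγ (hγE j) (hnd' j hj) hY (hst j Y hY) h2 h3
        (fun α' a b c => (h4 j α' a b c).2) u hu
    · refine sq_zero_of_noChain hγ (hγE j) (hγE' j) (hst j Y hY) h2 h3 hk (fun α' a b => ?_) u hu
      by_contra hc
      exact hj (h4 j α' a b hc).1
  have hne : ∀ ν : K, (∃ u ∈ E i, avg R γ k ν Y u ≠ 0) → (E i).map (avg R γ k ν Y) ≠ ⊥ := by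
    rintro ν ⟨u, hu, hu0⟩ h4
    apply hu0
    have h5 : avg R γ k ν Y u ∈ (E i).map (avg R γ k ν Y) := Submodule.mem_map_of_mem hu
    rwa [h4, Submodule.mem_bot] at h5
  have htwo : ∀ ν : K, finrank K ((part R γ (E i) A).map (avg R γ k ν Y)) ≤ 1 →
      finrank K ((part R γ (E i) Aᶜ).map (avg R γ k ν Y)) ≤ 1 →
      finrank K ((E i).map (avg R γ k ν Y)) ≤ 2 := by
    intro ν h2 h3
    have h5 : (E i).map (avg R γ k ν Y) ≤ (part R γ (E i) A).map (avg R γ k ν Y) ⊔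
        (part R γ (E i) Aᶜ).map (avg R γ k ν Y) := by
      rintro _ ⟨u, hu, rfl⟩
      obtain ⟨a, ha, b, hb, rfl⟩ := Submodule.mem_sup.1 (sup_part (A := A) hk hγ (hγE i) hu)
      rw [map_add]
      exact Submodule.add_mem_sup (Submodule.mem_map_of_mem ha) (Submodule.mem_map_of_mem hb)
    have h6 := Submodule.finrank_mono h5
    have h7 := Submodule.finrank_add_le_finrank_add_finrank
      ((part R γ (E i) A).map (avg R γ k ν Y)) ((part R γ (E i) Aᶜ).map (avg R γ k ν Y))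
    omega
  rcases hor with hor | hor
  · exact ⟨_, avg_mem γ k _ hY, hsq _ hν hν0 hch, hne _ hor, htwo _ h4.1.1 h4.1.2⟩
  · refine ⟨_, avg_mem γ k _ hY, hsq _ hν' hν0' ?_, hne _ hor, htwo _ h4.2.1 h4.2.2⟩
    intro j α' a b c
    have e : α * β⁻¹ = (β * α⁻¹)⁻¹ := by rw [mul_inv, inv_inv, mul_comm β⁻¹]
    rw [e] at b c ⊢
    by_cases hj : ∃ u ∈ E j, ∃ v ∈ E j, ω u v ≠ 0
    · exact ⟨hj, dualChain_inv hωR hk hγ (hγE j) (hnd' j hj) hν0
        (fun α'' a b c => (hch j α'' a b c).2) α' a b c⟩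
    · exfalso
      apply c
      refine noChain_inv hν0 (fun α'' a b => ?_) α' a b
      by_contra hc
      exact hj (hch j α'' a b hc).1

/-- The conditions for the strongly irreducible subspace `E i`. -/
def Good (R : Representation K Γ X) (χ : Γ →* K) (ω : X →ₗ[K] X →ₗ[K] K) (E : I → Submodule K X)
    (i : I) : Prop :=
  (finrank K (E i) = 1 ∧ ¬Du R χ (E i) (E i)) ∨
  (HasFrobenii R (fun _ : Unit => E i) ∧
    ∃ γ : Γ, (∃ k : ℕ, 0 < k ∧ R γ ^ k = 1) ∧ (∀ j, ∀ u ∈ E j, R γ u ∈ E j) ∧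
      (SplitsIsolated R E γ i ∨ ((∃ u ∈ E i, ∃ v ∈ E i, ω u v ≠ 0) ∧ SplitsSp R χ E ω γ i)))

/-- The main theorem over an algebraically closed field. -/
theorem fin_det (ω : X →ₗ[K] X →ₗ[K] K) (halt : ∀ v, ω v v = 0)
    (hnd : ∀ u, (∀ v, ω u v = 0) → u = 0)
    (hωR : ∀ g u v, ω (R g u) (R g v) = χ g * ω u v) (hss : HasProj R)
    (hE : SumOfSI R E) (hgood : ∀ i, Good R χ ω E i)
    (hH : ∀ U U', SI R U → SI R U' → 2 ≤ finrank K U → ¬Du R χ U U → ∀ ψ : Γ → K, Tw R ψ U U' →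
      Tw R (fun _ => 1) U U')
    {m : ℕ} (φ : MultilinearMap K (fun _ : Fin m × Fin 2 => X) K) (hφ : IsTate R χ m φ) :
    φ ∈ Submodule.span K (DetProd R χ m) := by
  have hst : ∀ j, ∀ Y ∈ lieT R χ, ∀ u ∈ E j, Y u ∈ E j := fun j Y hY =>
    lieT_stable ω hnd hωR hss (hE.1 j).2.1 hY
  have haltd : ∀ U i, SI R U → Tw R (fun _ => 1) U (E i) → (∃ u ∈ E i, ∃ v ∈ E i, ω u v ≠ 0) →
      AltDual R χ U := by
    rintro U i hU ⟨Δ, hΔ, T, hTU, h0, hT⟩ ⟨u, hu, v, hv, huv⟩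
    have hmap := tw_map hU (hE.1 i) hΔ hTU h0 hT
    rw [← hmap] at hu hv
    obtain ⟨u', hu', rfl⟩ := hu
    obtain ⟨v', hv', rfl⟩ := hv
    refine ⟨Δ, hΔ, ω.compl₁₂ T T, ⟨u', hu', v', hv', huv⟩, fun w _ => ?_, fun g hg w hw w' hw' => ?_⟩
    · rw [LinearMap.compl₁₂_apply, halt]
    · rw [LinearMap.compl₁₂_apply, LinearMap.compl₁₂_apply, hT g hg w hw, hT g hg w' hw', one_smul,
        one_smul, hωR]
  have hfr : ∀ U i, SI R U → Tw R (fun _ => 1) U (E i) → finrank K U = finrank K (E i) := by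
    rintro U i hU ⟨Δ, hΔ, T, hTU, h0, hT⟩
    obtain ⟨e, -⟩ := tw_equiv hU (hE.1 i) hΔ hTU h0 hT
    exact e.finrank_eq
  refine Pool.Agent.TH118.CU.nil_det ω hnd hωR ?_ hss ?_ hH φ hφ
  · intro U hU h2
    obtain ⟨i, hi⟩ := exists_iso' hss hE hU
    rcases hgood i with ⟨h1, -⟩ | ⟨hF, γ, ⟨k, hk, hγ⟩, hγE, h | ⟨hni, h⟩⟩
    · rw [hfr U i hU hi] at h2
      omega
    · obtain ⟨A, hA, hB, h1⟩ := h
      obtain ⟨N, hN1, hN2, hN3⟩ := iso_N E hE.2 hst hk hγ hγE i (hE.1 i)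
        (nonscalar_of_frob hF ()) A hA hB h1
      refine ⟨N, hN1, hN2, Or.inl ?_⟩
      rw [← rank_transfer ω hnd hωR hss hU (hE.1 i) hi hN1]
      exact hN3
    · obtain ⟨N, hN1, hN2, hN3, hN4⟩ := iso_N3 halt hωR hE.1 hE.2 hst hk hγ hγE i hni
        (nonscalar_of_frob hF ()) h
      have hrk := rank_transfer ω hnd hωR hss hU (hE.1 i) hi hN1
      have hne : U.map N ≠ ⊥ := by
        intro h0
        apply hN3
        rw [← Submodule.finrank_eq_zero (R := K), hrk, h0, finrank_bot]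
      rw [hrk] at hN4
      exact ⟨N, hN1, hN2, Or.inr ⟨hne, haltd U i hU hi hni, coreProp_nil hU hN1 hN2 hne hN4⟩⟩
  · intro U hU h1 hDu
    obtain ⟨i, hi⟩ := exists_iso' hss hE hU
    have h2 : finrank K (E i) = 1 := by rw [← hfr U i hU hi]; exact h1
    rcases hgood i with ⟨-, h3⟩ | ⟨-, γ, -, -, h⟩
    · apply h3
      obtain ⟨Δ, hΔ, T, hTU, h0, hT⟩ := hi.symm1 hU (hE.1 i)
      obtain ⟨Δ', hΔ', B, ⟨u, hu, v, hv, huv⟩, hB⟩ := hDu
      have hmap := tw_map (hE.1 i) hU hΔ hTU h0 hT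
      rw [← hmap] at hu hv
      obtain ⟨u', hu', rfl⟩ := hu
      obtain ⟨v', hv', rfl⟩ := hv
      refine ⟨Δ ⊓ Δ', inferInstance, B.compl₁₂ T T, ⟨u', hu', v', hv', huv⟩,
        fun g hg w hw w' hw' => ?_⟩
      rw [LinearMap.compl₁₂_apply, LinearMap.compl₁₂_apply, hT g hg.1 w hw, hT g hg.1 w' hw',
        one_smul, one_smul, hB g hg.2 _ (hTU w hw) _ (hTU w' hw')]
    · have h3 : 2 ≤ finrank K (E i) := by
        rcases h with ⟨A, ⟨α, hα, hα0⟩, ⟨β, hβ, hβ0⟩, -⟩ | ⟨-, A, ⟨α, hα, hα0⟩, ⟨β, hβ, hβ0⟩, -⟩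
        · exact two_le_finrank (α := α) (β := β) (fun h => hβ (by rw [← h]; exact hα)) hα0 hβ0
        · exact two_le_finrank (α := α) (β := β) (fun h => hβ (by rw [← h]; exact hα)) hα0 hβ0
      omega

end Pool.Agent.Y131.FI
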