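import Mathlib
import Pool.Agent.Y131.Big
import Pool.Agent.Y131.FI

/-!
# Tate classes and isolated slopes of Frobenius elements
-/

set_option linter.unusedSectionVars false

namespace Pool.Agent.Y131.SL

open Module Pool.Agent.H204R3.SP Pool.Agent.H204R3.GP Pool.Agent.W522.U Pool.Agent.TH118.WC
open Pool.Agent.TH118.CR Pool.Agent.TH118.CU Pool.Agent.TH118.IS

variable {K : Type} [Field K] [CharZero K] {X : Type} [AddCommGroup X] [Module K X]
  [FiniteDimensional K X] {Γ : Type} [Group Γ]

/-- The sum of the eigenspaces of `F` for the eigenvalues of slope `q`. -/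
def slopeSpace (R : Representation K Γ X) (F : Γ) (a : Additive Kˣ →+ ℚ) (q : ℚ) :
    Submodule K X :=
  ⨆ (α : Kˣ) (_ : a (Additive.ofMul α) = q), Module.End.eigenspace (R F) (α : K)

/-- The vectors of `U` of slope `q`. -/
def sl (R : Representation K Γ X) (F : Γ) (a : Additive Kˣ →+ ℚ) (U : Submodule K X) (q : ℚ) :
    Submodule K X :=
  U ⊓ slopeSpace R F a q

/-- A diagonal operator as a unit. -/
noncomputable def dgU {ι : Type} [Fintype ι] [DecidableEq ι] (b : Basis ι K X) (t : ι → Kˣ) :
    (End K X)ˣ where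
  val := dg b (fun k => (t k : K))
  inv := dg b (fun k => ((t k)⁻¹ : Kˣ))
  val_inv := by
    refine b.ext fun k => ?_
    rw [Module.End.mul_apply, dg_basis, map_smul, dg_basis, smul_smul, ← Units.val_mul,
      inv_mul_cancel, Units.val_one, one_smul, Module.End.one_apply]
  inv_val := by
    refine b.ext fun k => ?_
    rw [Module.End.mul_apply, dg_basis, map_smul, dg_basis, smul_smul, ← Units.val_mul,
      mul_inv_cancel, Units.val_one, one_smul, Module.End.one_apply]

theorem dgU_val {ι : Type} [Fintype ι] [DecidableEq ι] (b : Basis ι K X) (t : ι → Kˣ) :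
    ((dgU b t : (End K X)ˣ) : End K X) = dg b (fun k => (t k : K)) := rfl

theorem dgU_inv {ι : Type} [Fintype ι] [DecidableEq ι] (b : Basis ι K X) (t : ι → Kˣ) :
    (((dgU b t)⁻¹ : (End K X)ˣ) : End K X) = dg b (fun k => ((t k)⁻¹ : Kˣ)) := rfl

theorem aeval_stable {Y : End K X} {U : Submodule K X} (h : ∀ u ∈ U, Y u ∈ U)
    (p : Polynomial K) : ∀ u ∈ U, Polynomial.aeval Y p u ∈ U := by
  induction p using Polynomial.induction_on with
  | C c =>
    intro u hu
    rw [Polynomial.aeval_C]
    exact U.smul_mem _ hu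
  | add p q hp hq =>
    intro u hu
    rw [map_add]
    exact U.add_mem (hp u hu) (hq u hu)
  | monomial n c ih =>
    intro u hu
    rw [pow_succ, ← mul_assoc, map_mul, Polynomial.aeval_X, Module.End.mul_apply]
    exact ih _ (h u hu)

theorem aeval_dg {ι : Type} (b : Basis ι K X) (t : ι → K) (p : Polynomial K) :
    Polynomial.aeval (dg b t) p = dg b (fun k => p.eval (t k)) := by
  refine b.ext fun k => ?_
  rw [dg_basis]
  have h1 : Module.End.HasEigenvector (dg b t) (t k) (b k) :=
    ⟨Module.End.mem_eigenspace_iff.2 (dg_basis b t k), b.ne_zero k⟩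
  exact Module.End.aeval_apply_of_hasEigenvector h1

/-- A diagonal operator which is a function of another one preserves its stable subspaces. -/
theorem dg_stable {ι : Type} [Fintype ι] [DecidableEq ι] (b : Basis ι K X) (y t : ι → K)
    (h : ∀ k l, y k = y l → t k = t l) {U : Submodule K X} (hU : ∀ u ∈ U, dg b y u ∈ U) :
    ∀ u ∈ U, dg b t u ∈ U := by
  classical
  let g : K → K := fun z => if hz : ∃ k, y k = z then t hz.choose else 0
  have hg : ∀ k, g (y k) = t k := by
    intro k
    have hz : ∃ l, y l = y k := ⟨k, rfl⟩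
    change (if hz : ∃ l, y l = y k then t hz.choose else 0) = t k
    rw [dif_pos hz]
    exact h _ _ hz.choose_spec
  let p : Polynomial K := Lagrange.interpolate (Finset.univ.image y) id g
  have hp : ∀ k, p.eval (y k) = t k := by
    intro k
    rw [← hg k]
    exact Lagrange.eval_interpolate_at_node g (Set.injOn_id _)
      (Finset.mem_image_of_mem y (Finset.mem_univ k))
  have h1 : dg b t = Polynomial.aeval (dg b y) p := by
    rw [aeval_dg]
    congr 1
    funext k
    exact (hp k).symm
  rw [h1]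
  exact aeval_stable hU p

/-- The eigenspaces of a diagonal operator. -/
theorem eigenspace_dg {ι : Type} [Fintype ι] [DecidableEq ι] (b : Basis ι K X) (t : ι → K) (μ : K) :
    Module.End.eigenspace (dg b t) μ = Submodule.span K (b '' {k | t k = μ}) := by
  apply le_antisymm
  · intro u hu
    rw [Module.End.mem_eigenspace_iff] at hu
    have h1 : ∀ k, b.repr u k * (t k - μ) = 0 := by
      intro k
      have h2 : dg b t u = ∑ k, (b.repr u k * t k) • b k := by
        conv_lhs => rw [← b.sum_repr u]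
        rw [map_sum]
        refine Finset.sum_congr rfl fun k _ => ?_
        rw [map_smul, dg_basis, smul_smul]
      have h3 : b.repr (dg b t u) k = b.repr u k * t k := by
        rw [h2, Basis.repr_sum_self]
      rw [hu, map_smul, Finsupp.smul_apply, smul_eq_mul] at h3
      linear_combination -h3
    rw [← b.sum_repr u]
    refine Submodule.sum_mem _ fun k _ => ?_
    rcases mul_eq_zero.1 (h1 k) with h2 | h2
    · rw [h2, zero_smul]
      exact Submodule.zero_mem _
    · exact Submodule.smul_mem _ _ (Submodule.subset_span ⟨k, sub_eq_zero.1 h2, rfl⟩)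
  · rw [Submodule.span_le]
    rintro _ ⟨k, hk, rfl⟩
    rw [SetLike.mem_coe, Module.End.mem_eigenspace_iff, dg_basis]
    rw [Set.mem_ofPred_eq] at hk
    rw [hk]

section slopes

variable {R : Representation K Γ X} {χ : Γ →* K} {ι : Type} [Fintype ι] [DecidableEq ι]
  {F : Γ} {b : Basis ι K X} {lam : ι → Kˣ} (hF : ∀ k, R F (b k) = (lam k : K) • b k)
  {a : Additive Kˣ →+ ℚ}

include hF in
theorem R_eq_dg : R F = dg b (fun k => (lam k : K)) := by
  refine b.ext fun k => ?_
  rw [hF, dg_basis]

include hF in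
theorem slopeSpace_eq (q : ℚ) :
    slopeSpace R F a q = Submodule.span K (b '' {k | a (Additive.ofMul (lam k)) = q}) := by
  apply le_antisymm
  · unfold slopeSpace
    rw [iSup₂_le_iff]
    intro α hα
    rw [R_eq_dg hF, eigenspace_dg]
    refine Submodule.span_mono (Set.image_mono ?_)
    intro k hk
    rw [Set.mem_ofPred_eq] at hk ⊢
    rw [← hα, Units.ext hk]
  · rw [Submodule.span_le]
    rintro _ ⟨k, hk, rfl⟩
    rw [Set.mem_ofPred_eq] at hk
    unfold slopeSpace
    refine Submodule.mem_iSup_of_mem (lam k) (Submodule.mem_iSup_of_mem hk ?_)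
    rw [Module.End.mem_eigenspace_iff]
    exact hF k

/-- The data: integers proportional to the slopes, and a root of unity of large order. -/
structure Data (lam : ι → Kˣ) (a : Additive Kˣ →+ ℚ) (c : ℚ) where
  /-- the denominator -/
  D : ℤ
  hD : D ≠ 0
  /-- the numerators -/
  n : ι → ℤ
  hn : ∀ k, (n k : ℚ) = D * (a (Additive.ofMul (lam k)) - c / 2)
  /-- the bound -/
  M : ℕ
  hM : ∀ k, (n k).natAbs ≤ M
  /-- the root of unity -/
  z : Kˣ
  hz : IsPrimitiveRoot z (4 * M + 1)

theorem exists_data [IsAlgClosed K] (lam : ι → Kˣ) (a : Additive Kˣ →+ ℚ) (c : ℚ) :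
    Nonempty (Data lam a c) := by
  obtain ⟨D, hD⟩ := IsLocalization.exist_integer_multiples_of_finite (nonZeroDivisors ℤ)
    (fun k : ι => a (Additive.ofMul (lam k)) - c / 2)
  choose n hn using hD
  let M : ℕ := Finset.univ.sup fun k => (n k).natAbs
  have : NeZero ((4 * M + 1 : ℕ) : K) := ⟨Nat.cast_ne_zero.2 (by omega)⟩
  obtain ⟨z, hz⟩ := HasEnoughRootsOfUnity.exists_primitiveRoot K (4 * M + 1)
  refine ⟨⟨D, nonZeroDivisors.coe_ne_zero D, n, fun k => ?_, M, fun k => ?_,
    (hz.isUnit (by omega)).unit', ?_⟩⟩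
  · have h1 := hn k
    rw [eq_intCast] at h1
    rw [h1, zsmul_eq_mul]
  · exact Finset.le_sup (f := fun k => (n k).natAbs) (Finset.mem_univ k)
  · exact hz.isUnit_unit' (by omega)

variable {c : ℚ} (d : Data lam a c)

theorem Data.inj (x : ℤ) (hx : x.natAbs ≤ 4 * d.M) (h : d.z ^ x = 1) : x = 0 := by
  have h1 := (d.hz.zpow_eq_one_iff_dvd x).1 h
  by_contra h0
  have h2 := Int.natAbs_le_of_dvd_ne_zero h1 h0
  simp only [Int.natAbs_natCast] at h2
  omega

theorem Data.slope_eq {k l : ι} : d.n k = d.n l ↔ a (Additive.ofMul (lam k)) = a (Additive.ofMul (lam l)) := by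
  have hD : (d.D : ℚ) ≠ 0 := Int.cast_ne_zero.2 d.hD
  constructor
  · intro h
    have h1 := d.hn k
    have h2 := d.hn l
    rw [h] at h1
    rw [h1] at h2
    have h3 := mul_left_cancel₀ hD h2
    linarith
  · intro h
    have h1 := d.hn k
    rw [h, ← d.hn l] at h1
    exact_mod_cast h1

/-- The automorphism. -/
noncomputable def Data.s (b : Basis ι K X) : (End K X)ˣ := dgU b (fun k => d.z ^ d.n k)

theorem Data.s_basis (b : Basis ι K X) (k : ι) :
    ((d.s b : (End K X)ˣ) : End K X) (b k) = ((d.z ^ d.n k : Kˣ) : K) • b k := by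
  rw [Data.s, dgU_val, dg_basis]

theorem Data.s_inv_basis (b : Basis ι K X) (k : ι) :
    (((d.s b)⁻¹ : (End K X)ˣ) : End K X) (b k) = (((d.z ^ d.n k)⁻¹ : Kˣ) : K) • b k := by
  rw [Data.s, dgU_inv, dg_basis]

theorem Data.s_pow (b : Basis ι K X) :
    ((d.s b : (End K X)ˣ) : End K X) ^ (4 * d.M + 1) = 1 := by
  refine b.ext fun k => ?_
  have h1 : ∀ t : ℕ, (((d.s b : (End K X)ˣ) : End K X) ^ t) (b k) =
      (((d.z ^ d.n k) ^ t : Kˣ) : K) • b k := by
    intro t
    induction t with
    | zero => simp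
    | succ t ih =>
      rw [pow_succ, Module.End.mul_apply, d.s_basis, map_smul, ih, smul_smul, pow_succ,
        Units.val_mul, mul_comm]
  rw [h1, ← zpow_natCast, zpow_comm, zpow_natCast, d.hz.pow_eq_one, one_zpow, Units.val_one,
    one_smul, Module.End.one_apply]

theorem Data.pow_eq {x y : ℤ} (hx : x.natAbs ≤ 2 * d.M) (hy : y.natAbs ≤ 2 * d.M)
    (h : d.z ^ x = d.z ^ y) : x = y := by
  have h1 : d.z ^ (x - y) = 1 := by rw [zpow_sub, h, mul_inv_cancel]
  have h2 := d.inj (x - y) (by omega) h1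
  omega

include hF in
/-- The eigenspaces of the automorphism are the slope spaces. -/
theorem Data.eigenspace_s (k : ι) :
    Module.End.eigenspace ((d.s b : (End K X)ˣ) : End K X) ((d.z ^ d.n k : Kˣ) : K) =
      slopeSpace R F a (a (Additive.ofMul (lam k))) := by
  rw [slopeSpace_eq hF, Data.s, dgU_val, eigenspace_dg]
  congr 2
  ext l
  simp only [Set.mem_ofPred_eq]
  rw [← d.slope_eq]
  constructor
  · intro h
    exact d.pow_eq (by have := d.hM l; omega) (by have := d.hM k; omega) (Units.ext h)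
  · intro h
    rw [h]

theorem Data.exists_of_eig {U : Submodule K X} {μ : K}
    (h : U ⊓ Module.End.eigenspace ((d.s b : (End K X)ˣ) : End K X) μ ≠ ⊥) :
    ∃ k, μ = ((d.z ^ d.n k : Kˣ) : K) := by
  by_contra hcon
  push Not at hcon
  apply h
  rw [eq_bot_iff]
  rintro u ⟨-, hu⟩
  rw [Data.s, dgU_val] at hu
  rw [SetLike.mem_coe, eigenspace_dg] at hu
  have h1 : {k : ι | ((d.z ^ d.n k : Kˣ) : K) = μ} = ∅ := by
    ext k
    simp only [Set.mem_ofPred_eq, Set.mem_empty_iff_false, iff_false]
    exact fun h2 => hcon k h2.symm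
  rw [h1, Set.image_empty, Submodule.span_empty] at hu
  exact hu

include hF in
theorem Data.Y_mem (hc : ∀ x : Kˣ, (x : K) = χ F → a (Additive.ofMul x) = c) :
    dg b (fun k => ((a (Additive.ofMul (lam k)) - c / 2 : ℚ) : K)) ∈ lieT R χ := by
  have hχ0 : χ F ≠ 0 := χne (χ := χ) F
  let c' : Kˣ := Units.mk0 (χ F) hχ0
  have h1 := dg_mem R χ F b lam hF c' rfl (((Rat.castHom K : ℚ →+* K) : ℚ →+ K).comp a)
  have h2 := hc c' rfl
  convert h1 using 3 with k
  rw [AddMonoidHom.comp_apply, AddMonoidHom.comp_apply, h2]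
  simp only [AddMonoidHom.coe_coe, Rat.coe_castHom]
  push_cast
  ring

end slopes

end Pool.Agent.Y131.SL
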