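import Mathlib
import Pool.Agent.Y131.SL

/-!
# Tate classes and isolated slopes of Frobenius elements, second part
-/

set_option linter.unusedSectionVars false

namespace Pool.Agent.Y131.SL

open Module Pool.Agent.H204R3.SP Pool.Agent.H204R3.GP Pool.Agent.W522.U Pool.Agent.TH118.WC
open Pool.Agent.TH118.CR Pool.Agent.TH118.CU Pool.Agent.TH118.IS
open Pool.Agent.W528.Tor (AltDual)

section defs

variable {K : Type} [Field K] {X : Type} [AddCommGroup X] [Module K X] {Γ : Type} [Group Γ]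
  (R : Representation K Γ X) {I : Type} (E : I → Submodule K X) (F : Γ) (a : Additive Kˣ →+ ℚ)

/-- Isolated slopes. -/
def SlopesIsolated (i : I) : Prop :=
  ∃ S : Set ℚ, (∃ α ∈ S, sl R F a (E i) α ≠ ⊥) ∧ (∃ β ∉ S, sl R F a (E i) β ≠ ⊥) ∧
    ∀ α ∈ S, ∀ β ∉ S, sl R F a (E i) α ≠ ⊥ → sl R F a (E i) β ≠ ⊥ →
      (finrank K (sl R F a (E i) α) = 1 ∨ finrank K (sl R F a (E i) β) = 1) ∧
      (∀ α' β', sl R F a (E i) α' ≠ ⊥ → sl R F a (E i) β' ≠ ⊥ → β' - α' = β - α → α' = α) ∧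
      ∀ j p q r, sl R F a (E j) p ≠ ⊥ → sl R F a (E j) q ≠ ⊥ → sl R F a (E j) r ≠ ⊥ →
        q - p = β - α → r - q = β - α → False

/-- Isolated pairs of slopes. -/
def SlopesPairs (ω : X →ₗ[K] X →ₗ[K] K) (c : ℚ) (i : I) : Prop :=
  ∃ S : Set ℚ, (∃ α ∈ S, sl R F a (E i) α ≠ ⊥) ∧ (∃ β ∉ S, sl R F a (E i) β ≠ ⊥) ∧
    (∀ α, sl R F a (E i) α ≠ ⊥ → (α ∈ S ↔ c - α ∈ S)) ∧
    ∀ α ∈ S, ∀ β ∉ S, sl R F a (E i) α ≠ ⊥ → sl R F a (E i) β ≠ ⊥ →
      (finrank K (sl R F a (E i) α) = 1 ∨ finrank K (sl R F a (E i) β) = 1) ∧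
      (∀ α' β', sl R F a (E i) α' ≠ ⊥ → sl R F a (E i) β' ≠ ⊥ → β' - α' = β - α →
        α' = α ∨ α' + β = c) ∧
      ∀ j p q r, sl R F a (E j) p ≠ ⊥ → sl R F a (E j) q ≠ ⊥ → sl R F a (E j) r ≠ ⊥ →
        q - p = β - α → r - q = β - α →
        (∃ u ∈ E j, ∃ v ∈ E j, ω u v ≠ 0) ∧ finrank K (sl R F a (E j) p) = 1 ∧ p + r = c

end defs

variable {K : Type} [Field K] [CharZero K] {X : Type} [AddCommGroup X]
  [Module K X] [FiniteDimensional K X] {Γ : Type} [Group Γ] {R : Representation K Γ X}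
  {χ : Γ →* K}

section

variable {ι : Type} [Fintype ι] [DecidableEq ι]
  {F : Γ} {b : Basis ι K X} {lam : ι → Kˣ} (hF : ∀ k, R F (b k) = (lam k : K) • b k)
  {a : Additive Kˣ →+ ℚ} {c : ℚ} (hc : ∀ x : Kˣ, (x : K) = χ F → a (Additive.ofMul x) = c)
  (d : Data lam a c)

include hF in
theorem exists_of_sl {U : Submodule K X} {q : ℚ} (h : sl R F a U q ≠ ⊥) :
    ∃ k, a (Additive.ofMul (lam k)) = q := by
  by_contra hcon
  push Not at hcon
  apply h
  rw [eq_bot_iff]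
  rintro u ⟨-, hu⟩
  rw [SetLike.mem_coe, slopeSpace_eq hF] at hu
  have h1 : {k : ι | a (Additive.ofMul (lam k)) = q} = ∅ := by
    ext k
    simp only [Set.mem_ofPred_eq, Set.mem_empty_iff_false, iff_false]
    exact fun h2 => hcon k h2
  rw [h1, Set.image_empty, Submodule.span_empty] at hu
  exact hu

include hF in
theorem eig_sl (U : Submodule K X) (k : ι) :
    eig (bigR R (d.s b)) (gen Γ) U ((d.z ^ d.n k : Kˣ) : K) =
      sl R F a U (a (Additive.ofMul (lam k))) := by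
  rw [eig, bigR_gen, sl, d.eigenspace_s hF]

theorem exists_of_eig' {U : Submodule K X} {μ : K}
    (h : eig (bigR R (d.s b)) (gen Γ) U μ ≠ ⊥) : ∃ k, μ = ((d.z ^ d.n k : Kˣ) : K) := by
  rw [eig, bigR_gen] at h
  exact d.exists_of_eig h

theorem zprod {G κ : Type} [CommGroup G] (z : G) (f : κ → ℤ) (s : Finset κ) :
    ∏ l ∈ s, z ^ f l = z ^ ∑ l ∈ s, f l := by
  classical
  induction s using Finset.induction_on with
  | empty => simp
  | insert x s hx ih => rw [Finset.prod_insert hx, Finset.sum_insert hx, ih, zpow_add]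

section pres

variable (ω : X →ₗ[K] X →ₗ[K] K) (hnd : ∀ u, (∀ v, ω u v = 0) → u = 0)
  (hωR : ∀ g u v, ω (R g u) (R g v) = χ g * ω u v) (hss : HasProj R)

theorem w_inj {k l : ι} (h : ((a (Additive.ofMul (lam k)) - c / 2 : ℚ) : K) =
    ((a (Additive.ofMul (lam l)) - c / 2 : ℚ) : K)) : d.n k = d.n l := by
  rw [d.slope_eq]
  have h1 : a (Additive.ofMul (lam k)) - c / 2 = a (Additive.ofMul (lam l)) - c / 2 := by
    exact_mod_cast h
  linarith

include ω hF hc hnd hωR hss in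
theorem presPot_s : PresPot R ((d.s b : (End K X)ˣ) : End K X) := by
  intro U hU
  rw [Data.s, dgU_val]
  refine dg_stable b (fun k => ((a (Additive.ofMul (lam k)) - c / 2 : ℚ) : K)) _
    (fun k l h => ?_) (lieT_stable ω hnd hωR hss hU (Data.Y_mem hF hc))
  rw [w_inj d h]

include ω hF hc hnd hωR hss in
theorem presPot_s' : PresPot R (((d.s b)⁻¹ : (End K X)ˣ) : End K X) := by
  intro U hU
  rw [Data.s, dgU_inv]
  refine dg_stable b (fun k => ((a (Additive.ofMul (lam k)) - c / 2 : ℚ) : K)) _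
    (fun k l h => ?_) (lieT_stable ω hnd hωR hss hU (Data.Y_mem hF hc))
  rw [w_inj d h]

include hF hc in
theorem presTate_dg (t : ι → Kˣ) (e : ℤ) (ht : ∀ k, t k = (d.z ^ d.n k) ^ e) :
    PresTate R χ (dg b (fun k => (t k : K))) := by
  intro m φ hφ v
  have h1 : φ.compLinearMap (fun _ => dg b (fun k => (t k : K))) = φ := by
    refine Basis.ext_multilinear (fun _ => b) fun I => ?_
    rw [MultilinearMap.compLinearMap_apply]
    simp only [dg_basis]
    rw [MultilinearMap.map_smul_univ, smul_eq_mul]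
    by_cases h0 : φ (fun l => b (I l)) = 0
    · rw [h0, mul_zero]
    have h2 := Data.Y_mem (R := R) (χ := χ) (b := b) hF hc m φ hφ (fun l => b (I l))
    have h3 : ∀ l : Fin m × Fin 2, φ (Function.update (fun l => b (I l)) l
        (dg b (fun k => ((a (Additive.ofMul (lam k)) - c / 2 : ℚ) : K)) (b (I l)))) =
        ((a (Additive.ofMul (lam (I l))) - c / 2 : ℚ) : K) * φ (fun l => b (I l)) := by
      intro l
      rw [dg_basis, MultilinearMap.map_update_smul, smul_eq_mul, Function.update_eq_self]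
    rw [Finset.sum_congr rfl fun l _ => h3 l, ← Finset.sum_mul] at h2
    have h4 := (mul_eq_zero.1 h2).resolve_right h0
    have h5 : ∑ l, (a (Additive.ofMul (lam (I l))) - c / 2) = 0 := by exact_mod_cast h4
    have h6 : ∑ l, d.n (I l) = 0 := by
      have h7 : ((∑ l, d.n (I l) : ℤ) : ℚ) = 0 := by
        push_cast
        rw [Finset.sum_congr rfl fun l _ => d.hn (I l), ← Finset.mul_sum, h5, mul_zero]
      exact_mod_cast h7
    have h7 : ∏ l, t (I l) = 1 := by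
      rw [Finset.prod_congr rfl fun l _ => ht (I l), Finset.prod_zpow, zprod, h6, zpow_zero,
        one_zpow]
    have h8 : ∏ l, ((t (I l) : Kˣ) : K) = 1 := by
      rw [← Units.coe_prod, h7, Units.val_one]
    rw [h8, one_mul]
  calc φ (fun l => dg b (fun k => (t k : K)) (v l))
      = φ.compLinearMap (fun _ => dg b (fun k => (t k : K))) v := rfl
    _ = φ v := by rw [h1]

include hF hc in
theorem presTate_s : PresTate R χ ((d.s b : (End K X)ˣ) : End K X) :=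
  presTate_dg hF hc d _ 1 fun k => by rw [zpow_one]

include hF hc in
theorem presTate_s' : PresTate R χ (((d.s b)⁻¹ : (End K X)ˣ) : End K X) :=
  presTate_dg hF hc d _ (-1) fun k => by rw [zpow_neg_one]

include hF hc hωR in
theorem om_dg (t : ι → Kˣ) (e : ℤ) (ht : ∀ k, t k = (d.z ^ d.n k) ^ e) (u v : X) :
    ω (dg b (fun k => (t k : K)) u) (dg b (fun k => (t k : K)) v) = ω u v := by
  have h1 : ω.compl₁₂ (dg b (fun k => (t k : K))) (dg b (fun k => (t k : K))) = ω := by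
    refine b.ext fun k => b.ext fun l => ?_
    rw [LinearMap.compl₁₂_apply, dg_basis, dg_basis, map_smul, map_smul, LinearMap.smul_apply,
      smul_eq_mul, smul_eq_mul]
    by_cases h0 : ω (b k) (b l) = 0
    · rw [h0, mul_zero, mul_zero]
    have h2 := lieT_sp R χ ω hωR (Data.Y_mem (R := R) (χ := χ) (b := b) hF hc) (b k) (b l)
    rw [dg_basis, dg_basis, map_smul, map_smul, LinearMap.smul_apply, smul_eq_mul,
      smul_eq_mul, ← add_mul] at h2
    have h3 := (mul_eq_zero.1 h2).resolve_right h0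
    have h4 : (a (Additive.ofMul (lam k)) - c / 2) + (a (Additive.ofMul (lam l)) - c / 2) = 0 := by
      exact_mod_cast h3
    have h5 : d.n k + d.n l = 0 := by
      have h7 : ((d.n k + d.n l : ℤ) : ℚ) = 0 := by
        push_cast
        rw [d.hn, d.hn, ← mul_add, h4, mul_zero]
      exact_mod_cast h7
    have h6 : t k * t l = 1 := by
      rw [ht, ht, ← mul_zpow, ← zpow_add, h5, zpow_zero, one_zpow]
    have h7 : ((t k : Kˣ) : K) * ((t l : Kˣ) : K) = 1 := by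
      rw [← Units.val_mul, h6, Units.val_one]
    linear_combination (ω (b k) (b l)) * h7
  calc ω (dg b (fun k => (t k : K)) u) (dg b (fun k => (t k : K)) v)
      = ω.compl₁₂ (dg b (fun k => (t k : K))) (dg b (fun k => (t k : K))) u v := rfl
    _ = ω u v := by rw [h1]

end pres

/-- The operator with the slopes is not a scalar. -/
theorem nonscalar_of_sl {U : Submodule K X} {α β : ℚ} (hαβ : α ≠ β) (hα : sl R F a U α ≠ ⊥)
    (hβ : sl R F a U β ≠ ⊥) (hF : ∀ k, R F (b k) = (lam k : K) • b k)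
    (hc : ∀ x : Kˣ, (x : K) = χ F → a (Additive.ofMul x) = c) :
    ∃ Y ∈ lieT R χ, ¬∃ z : K, ∀ u ∈ U, Y u = z • u := by
  refine ⟨_, Data.Y_mem hF hc, ?_⟩
  rintro ⟨z, hz⟩
  have key : ∀ q, sl R F a U q ≠ ⊥ → ((q - c / 2 : ℚ) : K) = z := by
    intro q hq
    obtain ⟨u, hu, hu0⟩ := Submodule.exists_mem_ne_zero_of_ne_bot hq
    have h1 := hu.2
    rw [SetLike.mem_coe, slopeSpace_eq hF] at h1
    have h2 : dg b (fun k => ((a (Additive.ofMul (lam k)) - c / 2 : ℚ) : K)) u =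
        ((q - c / 2 : ℚ) : K) • u := by
      rw [← Module.End.mem_eigenspace_iff, eigenspace_dg]
      refine Submodule.span_mono (Set.image_mono fun k hk => ?_) h1
      rw [Set.mem_ofPred_eq] at hk ⊢
      rw [hk]
    rw [hz u hu.1] at h2
    have h3 : (z - ((q - c / 2 : ℚ) : K)) • u = 0 := by rw [sub_smul, h2, sub_self]
    exact (sub_eq_zero.1 ((smul_eq_zero.1 h3).resolve_right hu0)).symm
  have h1 := key α hα
  rw [← key β hβ] at h1
  apply hαβ
  have h2 : α - c / 2 = β - c / 2 := by exact_mod_cast h1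
  linarith

end

section main

variable [IsAlgClosed K] {I : Type} {E : I → Submodule K X}

section

variable {ι : Type} [Fintype ι] [DecidableEq ι]
  {F : Γ} {b : Basis ι K X} {lam : ι → Kˣ} (hF : ∀ k, R F (b k) = (lam k : K) • b k)
  {a : Additive Kˣ →+ ℚ} {c : ℚ} (d : Data lam a c)

/-- Four slopes whose images under the exponential map are in proportion are in proportion. -/
theorem prop_eq {k0 k1 k2 k3 : ι}
    (h : ((d.z ^ d.n k2 : Kˣ) : K) * (((d.z ^ d.n k1 : Kˣ) : K) * ((d.z ^ d.n k0 : Kˣ) : K)⁻¹) =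
      ((d.z ^ d.n k3 : Kˣ) : K)) :
    a (Additive.ofMul (lam k3)) - a (Additive.ofMul (lam k2)) =
      a (Additive.ofMul (lam k1)) - a (Additive.ofMul (lam k0)) := by
  have h1 : d.z ^ (d.n k2 + d.n k1) = d.z ^ (d.n k3 + d.n k0) := by
    apply Units.ext
    rw [zpow_add, zpow_add, Units.val_mul, Units.val_mul, ← h]
    have h2 : ((d.z ^ d.n k0 : Kˣ) : K) ≠ 0 := Units.ne_zero _
    field_simp
  have hM := d.hM
  have h2 := d.pow_eq (by have := hM k2; have := hM k1; omega)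
    (by have := hM k3; have := hM k0; omega) h1
  have hD : (d.D : ℚ) ≠ 0 := Int.cast_ne_zero.2 d.hD
  have h3 : ((d.n k2 + d.n k1 : ℤ) : ℚ) = ((d.n k3 + d.n k0 : ℤ) : ℚ) := by rw [h2]
  push_cast at h3
  rw [d.hn, d.hn, d.hn, d.hn, ← mul_add, ← mul_add] at h3
  have h4 := mul_left_cancel₀ hD h3
  linarith

include hF in
theorem isolated_big (i : I) (h : SlopesIsolated R E F a i) :
    SplitsIsolated (bigR R (d.s b)) E (gen Γ) i := by
  obtain ⟨S, ⟨α, hα, hα0⟩, ⟨β, hβ, hβ0⟩, h⟩ := h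
  have hA : ∀ k, (∃ k0, ((d.z ^ d.n k : Kˣ) : K) = ((d.z ^ d.n k0 : Kˣ) : K) ∧
      a (Additive.ofMul (lam k0)) ∈ S) → a (Additive.ofMul (lam k)) ∈ S := by
    rintro k ⟨k0, h1, h2⟩
    have h3 := d.pow_eq (by have := d.hM k; omega) (by have := d.hM k0; omega) (Units.ext h1)
    rwa [d.slope_eq.1 h3]
  refine ⟨{μ | ∃ k0, μ = ((d.z ^ d.n k0 : Kˣ) : K) ∧ a (Additive.ofMul (lam k0)) ∈ S}, ?_, ?_, ?_⟩
  · obtain ⟨k, rfl⟩ := exists_of_sl hF hα0
    exact ⟨_, ⟨k, rfl, hα⟩, by rwa [eig_sl hF]⟩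
  · obtain ⟨k, rfl⟩ := exists_of_sl hF hβ0
    exact ⟨_, fun h1 => hβ (hA k h1), by rwa [eig_sl hF]⟩
  · rintro _ ⟨k0, rfl, hk0⟩ β hβ h2 h3
    obtain ⟨k1, rfl⟩ := exists_of_eig' d h3
    have hk1 : a (Additive.ofMul (lam k1)) ∉ S := fun h4 => hβ ⟨k1, rfl, h4⟩
    rw [eig_sl hF] at h2 h3
    obtain ⟨g1, g2, g3⟩ := h _ hk0 _ hk1 h2 h3
    rw [eig_sl hF, eig_sl hF]
    refine ⟨g1, fun α' h4 h5 => ?_, fun j α' h4 h5 => ?_⟩
    · obtain ⟨k2, rfl⟩ := exists_of_eig' d h4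
      obtain ⟨k3, hk3⟩ := exists_of_eig' d h5
      rw [hk3] at h5
      rw [eig_sl hF] at h4 h5
      have h6 := g2 _ _ h4 h5 (prop_eq d hk3)
      rw [d.slope_eq.2 h6]
    · by_contra h6
      obtain ⟨k2, rfl⟩ := exists_of_eig' d h4
      obtain ⟨k3, hk3⟩ := exists_of_eig' d h5
      rw [hk3] at h5 h6
      obtain ⟨k4, hk4⟩ := exists_of_eig' d h6
      rw [hk4] at h6
      rw [eig_sl hF] at h4 h5 h6
      exact g3 j _ _ _ h4 h5 h6 (prop_eq d hk3) (prop_eq d hk4)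

include hF in
theorem pairs_big {ω : X →ₗ[K] X →ₗ[K] K} (hnd : ∀ u, (∀ v, ω u v = 0) → u = 0)
    (hωR : ∀ g u v, ω (R g u) (R g v) = χ g * ω u v)
    (hc : ∀ x : Kˣ, (x : K) = χ F → a (Additive.ofMul x) = c) (i : I)
    (h : SlopesPairs R E F a ω c i) :
    FI.SplitsSp (bigR R (d.s b)) (bigχ χ) E ω (gen Γ) i := by
  obtain ⟨S, ⟨α, hα, hα0⟩, ⟨β, hβ, hβ0⟩, hdual, h⟩ := h
  have hD : (d.D : ℚ) ≠ 0 := Int.cast_ne_zero.2 d.hD
  have hA : ∀ k, (∃ k0, ((d.z ^ d.n k : Kˣ) : K) = ((d.z ^ d.n k0 : Kˣ) : K) ∧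
      a (Additive.ofMul (lam k0)) ∈ S) → a (Additive.ofMul (lam k)) ∈ S := by
    rintro k ⟨k0, h1, h2⟩
    have h3 := d.pow_eq (by have := d.hM k; omega) (by have := d.hM k0; omega) (Units.ext h1)
    rwa [d.slope_eq.1 h3]
  have hsum : ∀ k l, d.n k + d.n l = 0 ↔
      a (Additive.ofMul (lam k)) + a (Additive.ofMul (lam l)) = c := by
    intro k l
    constructor
    · intro h1
      have h2 : ((d.n k + d.n l : ℤ) : ℚ) = 0 := by rw [h1]; norm_num
      push_cast at h2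
      rw [d.hn, d.hn, ← mul_add] at h2
      have h3 := (mul_eq_zero.1 h2).resolve_left hD
      linarith
    · intro h1
      have h2 : ((d.n k + d.n l : ℤ) : ℚ) = 0 := by
        push_cast
        rw [d.hn, d.hn, ← mul_add]
        have h3 : a (Additive.ofMul (lam k)) - c / 2 + (a (Additive.ofMul (lam l)) - c / 2) = 0 := by
          linarith
        rw [h3, mul_zero]
      exact_mod_cast h2
  have hmul : ∀ k l, ((d.z ^ d.n k : Kˣ) : K) * ((d.z ^ d.n l : Kˣ) : K) = 1 ↔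
      a (Additive.ofMul (lam k)) + a (Additive.ofMul (lam l)) = c := by
    intro k l
    rw [← hsum]
    constructor
    · intro h1
      have h2 : d.z ^ (d.n k + d.n l) = 1 := by
        apply Units.ext
        rw [zpow_add, Units.val_mul, h1, Units.val_one]
      exact d.inj _ (by have := d.hM k; have := d.hM l; omega) h2
    · intro h1
      rw [← Units.val_mul, ← zpow_add, h1, zpow_zero, Units.val_one]
  have hpair : ∀ k, ∃ l, a (Additive.ofMul (lam k)) + a (Additive.ofMul (lam l)) = c := by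
    intro k
    obtain ⟨l, hl⟩ : ∃ l, ω (b k) (b l) ≠ 0 := by
      by_contra hcon
      push Not at hcon
      apply b.ne_zero k
      refine hnd _ fun v => ?_
      rw [← b.sum_repr v, map_sum]
      refine Finset.sum_eq_zero fun l _ => ?_
      rw [map_smul, hcon l, smul_zero]
    have h1 := hωR F (b k) (b l)
    rw [hF, hF, map_smul, map_smul, LinearMap.smul_apply, smul_eq_mul, smul_eq_mul,
      ← mul_assoc] at h1
    have h2 := mul_right_cancel₀ hl h1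
    refine ⟨l, ?_⟩
    rw [← map_add, ← ofMul_mul]
    refine hc _ ?_
    rw [Units.val_mul, mul_comm]
    exact h2
  refine ⟨{μ | ∃ k0, μ = ((d.z ^ d.n k0 : Kˣ) : K) ∧ a (Additive.ofMul (lam k0)) ∈ S}, ?_, ?_, ?_,
    ?_⟩
  · obtain ⟨k, rfl⟩ := exists_of_sl hF hα0
    exact ⟨_, ⟨k, rfl, hα⟩, by rwa [eig_sl hF]⟩
  · obtain ⟨k, rfl⟩ := exists_of_sl hF hβ0
    exact ⟨_, fun h1 => hβ (hA k h1), by rwa [eig_sl hF]⟩
  · intro μ hμ
    obtain ⟨k, rfl⟩ := exists_of_eig' d hμ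
    rw [eig_sl hF] at hμ
    rw [bigχ_gen, one_mul]
    have h0 : ((d.z ^ d.n k : Kˣ) : K) ≠ 0 := Units.ne_zero _
    constructor
    · intro h1
      have h2 := (hdual _ hμ).1 (hA k h1)
      obtain ⟨l, hl⟩ := hpair k
      refine ⟨l, ?_, ?_⟩
      · exact inv_eq_of_mul_eq_one_right ((hmul k l).2 hl)
      · rwa [← eq_sub_of_add_eq' hl] at h2
    · rintro ⟨l, hl, hlS⟩
      have h1 : ((d.z ^ d.n k : Kˣ) : K) * ((d.z ^ d.n l : Kˣ) : K) = 1 := by
        rw [← hl, mul_inv_cancel₀ h0]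
      have h2 := (hmul k l).1 h1
      refine ⟨k, rfl, (hdual _ hμ).2 ?_⟩
      rwa [← eq_sub_of_add_eq' h2]
  · rintro _ ⟨k0, rfl, hk0⟩ β hβ h2 h3
    obtain ⟨k1, rfl⟩ := exists_of_eig' d h3
    have hk1 : a (Additive.ofMul (lam k1)) ∉ S := fun h4 => hβ ⟨k1, rfl, h4⟩
    rw [eig_sl hF] at h2 h3
    obtain ⟨g1, g2, g3⟩ := h _ hk0 _ hk1 h2 h3
    rw [eig_sl hF, eig_sl hF, bigχ_gen]
    refine ⟨g1, fun α' h4 h5 => ?_, fun j α' h4 h5 h6 => ?_⟩
    · obtain ⟨k2, rfl⟩ := exists_of_eig' d h4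
      obtain ⟨k3, hk3⟩ := exists_of_eig' d h5
      rw [hk3] at h5
      rw [eig_sl hF] at h4 h5
      rcases g2 _ _ h4 h5 (prop_eq d hk3) with h6 | h6
      · exact Or.inl (by rw [d.slope_eq.2 h6])
      · exact Or.inr ((hmul k2 k1).2 h6)
    · obtain ⟨k2, rfl⟩ := exists_of_eig' d h4
      obtain ⟨k3, hk3⟩ := exists_of_eig' d h5
      rw [hk3] at h5 h6 ⊢
      obtain ⟨k4, hk4⟩ := exists_of_eig' d h6
      rw [hk4] at h6 ⊢
      rw [eig_sl hF] at h4 h5 h6 ⊢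
      obtain ⟨g4, g5, g6⟩ := g3 j _ _ _ h4 h5 h6 (prop_eq d hk3) (prop_eq d hk4)
      exact ⟨g4, g5, (hmul k2 k4).2 g6⟩

end

/-- The conditions for the strongly irreducible subspace `E i`: a line that is not self-dual, or
isolated slopes for some Frobenius element. -/
def Good (R : Representation K Γ X) (χ : Γ →* K) (ω : X →ₗ[K] X →ₗ[K] K) (E : I → Submodule K X)
    (i : I) : Prop :=
  (finrank K (E i) = 1 ∧ ¬Du R χ (E i) (E i)) ∨
  ∃ (F : Γ) (b : Basis (Fin (finrank K X)) K X) (lam : Fin (finrank K X) → Kˣ),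
    (∀ k, R F (b k) = (lam k : K) • b k) ∧
    ∃ (a : Additive Kˣ →+ ℚ) (c : ℚ), (∀ x : Kˣ, (x : K) = χ F → a (Additive.ofMul x) = c) ∧
      (SlopesIsolated R E F a i ∨ ((∃ u ∈ E i, ∃ v ∈ E i, ω u v ≠ 0) ∧
        SlopesPairs R E F a ω c i))

/-- A nilpotent element of the Lie algebra from isolated slopes. -/
theorem exists_N (ω : X →ₗ[K] X →ₗ[K] K) (halt : ∀ v, ω v v = 0)
    (hnd : ∀ u, (∀ v, ω u v = 0) → u = 0)
    (hωR : ∀ g u v, ω (R g u) (R g v) = χ g * ω u v) (hss : HasProj R)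
    (hE : SumOfSI R E) {i : I} {F : Γ} {b : Basis (Fin (finrank K X)) K X}
    {lam : Fin (finrank K X) → Kˣ} (hF : ∀ k, R F (b k) = (lam k : K) • b k)
    {a : Additive Kˣ →+ ℚ} {c : ℚ} (hc : ∀ x : Kˣ, (x : K) = χ F → a (Additive.ofMul x) = c)
    (h : SlopesIsolated R E F a i ∨ ((∃ u ∈ E i, ∃ v ∈ E i, ω u v ≠ 0) ∧
        SlopesPairs R E F a ω c i)) :
    ∃ N ∈ lieT R χ, N * N = 0 ∧ (finrank K ((E i).map N) = 1 ∨
      ((∃ u ∈ E i, ∃ v ∈ E i, ω u v ≠ 0) ∧ (E i).map N ≠ ⊥ ∧ finrank K ((E i).map N) ≤ 2)) := by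
  obtain ⟨d⟩ := exists_data lam a c
  have hP := presPot_s hF hc d ω hnd hωR hss
  have hP' := presPot_s' hF hc d ω hnd hωR hss
  have hT := presTate_s hF hc d
  have hT' := presTate_s' hF hc d
  have hL := lieT_big hT hT'
  have hst : ∀ j, ∀ Y ∈ lieT (bigR R (d.s b)) (bigχ χ), ∀ u ∈ E j, Y u ∈ E j := by
    intro j Y hY
    rw [hL] at hY
    exact lieT_stable ω hnd hωR hss (hE.1 j).2.1 hY
  have hγ : bigR R (d.s b) (gen Γ) ^ (4 * d.M + 1) = 1 := by
    rw [bigR_gen]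
    exact d.s_pow b
  have hγE : ∀ j, ∀ u ∈ E j, bigR R (d.s b) (gen Γ) u ∈ E j := by
    intro j u hu
    rw [bigR_gen]
    exact hP _ (hE.1 j).2.1 u hu
  have hSI : ∀ j, SI (bigR R (d.s b)) (E j) := fun j => (si_big hP hP').2 (hE.1 j)
  rcases h with h | ⟨hni, h⟩
  · have hns : ∃ Y ∈ lieT (bigR R (d.s b)) (bigχ χ), ¬∃ z : K, ∀ u ∈ E i, Y u = z • u := by
      rw [hL]
      obtain ⟨S, ⟨α, hα, hα0⟩, ⟨β, hβ, hβ0⟩, -⟩ := h
      exact nonscalar_of_sl (α := α) (β := β) (fun h => hβ (by rw [← h]; exact hα)) hα0 hβ0 hF hc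
    obtain ⟨A, hA, hB, h1⟩ := isolated_big hF d i h
    obtain ⟨N, hN1, hN2, hN3⟩ := iso_N E hE.2 hst (by omega) hγ hγE i (hSI i) hns A hA hB h1
    rw [hL] at hN1
    exact ⟨N, hN1, hN2, Or.inl hN3⟩
  · have hns : ∃ Y ∈ lieT (bigR R (d.s b)) (bigχ χ), ¬∃ z : K, ∀ u ∈ E i, Y u = z • u := by
      rw [hL]
      obtain ⟨S, ⟨α, hα, hα0⟩, ⟨β, hβ, hβ0⟩, -⟩ := h
      exact nonscalar_of_sl (α := α) (β := β) (fun h => hβ (by rw [← h]; exact hα)) hα0 hβ0 hF hc
    have hpr := pairing_big (s := d.s b) hωR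
      (fun u v => by
        rw [Data.s, dgU_val]
        exact om_dg hF hc d ω hωR _ 1 (fun k => by rw [zpow_one]) u v)
      (fun u v => by
        rw [Data.s, dgU_inv]
        exact om_dg hF hc d ω hωR _ (-1) (fun k => by rw [zpow_neg_one]) u v)
    obtain ⟨N, hN1, hN2, hN3, hN4⟩ := FI.iso_N3 halt hpr hSI hE.2 hst (by omega) hγ hγE i hni hns
      (pairs_big hF d hnd hωR hc i h)
    rw [hL] at hN1
    exact ⟨N, hN1, hN2, Or.inr ⟨hni, hN3, hN4⟩⟩

/-- The main theorem over an algebraically closed field. -/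
theorem slope_det (ω : X →ₗ[K] X →ₗ[K] K) (halt : ∀ v, ω v v = 0)
    (hnd : ∀ u, (∀ v, ω u v = 0) → u = 0)
    (hωR : ∀ g u v, ω (R g u) (R g v) = χ g * ω u v) (hss : HasProj R)
    (hE : SumOfSI R E) (hgood : ∀ i, Good R χ ω E i)
    (hH : ∀ U U', SI R U → SI R U' → 2 ≤ finrank K U → ¬Du R χ U U → ∀ ψ : Γ → K, Tw R ψ U U' →
      Tw R (fun _ => 1) U U')
    {m : ℕ} (φ : MultilinearMap K (fun _ : Fin m × Fin 2 => X) K) (hφ : IsTate R χ m φ) :
    φ ∈ Submodule.span K (DetProd R χ m) := by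
  have haltd : ∀ U i, SI R U → Tw R (fun _ => 1) U (E i) → (∃ u ∈ E i, ∃ v ∈ E i, ω u v ≠ 0) →
      AltDual R χ U := by
    rintro U i hU ⟨Δ, hΔ, T, hTU, h0, hT⟩ ⟨u, hu, v, hv, huv⟩
    have hmap := tw_map hU (hE.1 i) hΔ hTU h0 hT
    rw [← hmap] at hu hv
    obtain ⟨u', hu', rfl⟩ := hu
    obtain ⟨v', hv', rfl⟩ := hv
    refine ⟨Δ, hΔ, ω.compl₁₂ T T, ⟨u', hu', v', hv', huv⟩, fun w _ => ?_, fun g hg w hw w' hw' => ?_⟩
    · rw [LinearMap.compl₁₂_apply, halt]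
    · rw [LinearMap.compl₁₂_apply, LinearMap.compl₁₂_apply, hT g hg w hw, hT g hg w' hw', one_smul,
        one_smul, hωR]
  have hfr : ∀ U i, SI R U → Tw R (fun _ => 1) U (E i) → finrank K U = finrank K (E i) := by
    rintro U i hU ⟨Δ, hΔ, T, hTU, h0, hT⟩
    obtain ⟨e, -⟩ := tw_equiv hU (hE.1 i) hΔ hTU h0 hT
    exact e.finrank_eq
  refine Pool.Agent.TH118.CU.nil_det ω hnd hωR ?_ hss ?_ hH φ hφ
  · intro U hU h2
    obtain ⟨i, hi⟩ := exists_iso' hss hE hU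
    rcases hgood i with ⟨h1, -⟩ | ⟨F, b, lam, hF, a, c, hc, h⟩
    · rw [hfr U i hU hi] at h2
      omega
    · obtain ⟨N, hN1, hN2, hN3⟩ := exists_N ω halt hnd hωR hss hE hF hc h
      have hrk := rank_transfer ω hnd hωR hss hU (hE.1 i) hi hN1
      rcases hN3 with hN3 | ⟨hni, hN3, hN4⟩
      · refine ⟨N, hN1, hN2, Or.inl ?_⟩
        rw [← hrk]
        exact hN3
      · have hne : U.map N ≠ ⊥ := by
          intro h0
          apply hN3
          rw [← Submodule.finrank_eq_zero (R := K), hrk, h0, finrank_bot]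
        rw [hrk] at hN4
        exact ⟨N, hN1, hN2, Or.inr ⟨hne, haltd U i hU hi hni, coreProp_nil hU hN1 hN2 hne hN4⟩⟩
  · intro U hU h1 hDu
    obtain ⟨i, hi⟩ := exists_iso' hss hE hU
    have h2 : finrank K (E i) = 1 := by rw [← hfr U i hU hi]; exact h1
    rcases hgood i with ⟨-, h3⟩ | ⟨F, b, lam, hF, a, c, hc, h⟩
    · apply h3
      obtain ⟨Δ, hΔ, T, hTU, h0, hT⟩ := hi.symm1 hU (hE.1 i)
      obtain ⟨Δ', hΔ', B, ⟨u, hu, v, hv, huv⟩, hB⟩ := hDu
      have hmap := tw_map (hE.1 i) hU hΔ hTU h0 hT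
      rw [← hmap] at hu hv
      obtain ⟨u', hu', rfl⟩ := hu
      obtain ⟨v', hv', rfl⟩ := hv
      refine ⟨Δ ⊓ Δ', inferInstance, B.compl₁₂ T T, ⟨u', hu', v', hv', huv⟩,
        fun g hg w hw w' hw' => ?_⟩
      rw [LinearMap.compl₁₂_apply, LinearMap.compl₁₂_apply, hT g hg.1 w hw, hT g hg.1 w' hw',
        one_smul, one_smul, hB g hg.2 _ (hTU w hw) _ (hTU w' hw')]
    · obtain ⟨N, hN1, hN2, hN3⟩ := exists_N ω halt hnd hωR hss hE hF hc h
      have hst := lieT_stable ω hnd hωR hss (hE.1 i).2.1 hN1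
      -- a nilpotent operator on a line is zero
      have hzero : (E i).map N = ⊥ := by
        obtain ⟨⟨u, hu⟩, hu0, hspan⟩ := finrank_eq_one_iff'.1 h2
        have hu0' : u ≠ 0 := fun h => hu0 (Subtype.ext h)
        obtain ⟨z, hz⟩ := hspan ⟨N u, hst u hu⟩
        have hz' : z • u = N u := congrArg Subtype.val hz
        have h4 : N (N u) = 0 := by
          rw [← Module.End.mul_apply, hN2, LinearMap.zero_apply]
        rw [← hz', map_smul, ← hz', smul_smul] at h4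
        have h5 : z = 0 := by
          rcases smul_eq_zero.1 h4 with h6 | h6
          · exact mul_self_eq_zero.1 h6
          · exact absurd h6 hu0'
        rw [h5, zero_smul] at hz'
        rw [eq_bot_iff]
        rintro _ ⟨w, hw, rfl⟩
        obtain ⟨y, hy⟩ := hspan ⟨w, hw⟩
        have hy' : y • u = w := congrArg Subtype.val hy
        rw [Submodule.mem_bot, ← hy', map_smul, ← hz', smul_zero]
      rcases hN3 with hN3 | ⟨-, hN3, -⟩
      · rw [hzero, finrank_bot] at hN3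
        omega
      · exact hN3 hzero

end main

end Pool.Agent.Y131.SL
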