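import Mathlib
import Pool.Agent.Y131.SL

/-!
# Weak Hodge elements from ordinary Frobenius elements
-/

set_option linter.unusedSectionVars false

namespace Pool.Agent.Y131.SL

open Module Pool.Agent.H204R3.SP Pool.Agent.H204R3.GP Pool.Agent.W522.U Pool.Agent.TH118.WC
open Pool.Agent.TH118.CR

variable {K : Type} [Field K] [CharZero K] {X : Type} [AddCommGroup X] [Module K X]
  [FiniteDimensional K X] {Γ : Type} [Group Γ] {R : Representation K Γ X} {χ : Γ →* K}

/-- An operator that commutes with all weak Hodge elements commutes with a power of an ordinary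
Frobenius element. -/
theorem comm_of_ordinary {ι : Type} [Fintype ι] [DecidableEq ι] {F : Γ} {b : Basis ι K X}
    {lam : ι → Kˣ} (hF : ∀ k, R F (b k) = (lam k : K) • b k) {m : ℕ}
    (𝒱 : Set (Additive Kˣ →+ ℚ)) (h1 : ∀ a ∈ 𝒱, ∀ x : Kˣ, (x : K) = χ F → a (Additive.ofMul x) = 1)
    (h2 : ∀ a ∈ 𝒱, ∀ k, a (Additive.ofMul (lam k)) = 0 ∨ a (Additive.ofMul (lam k)) = 1)
    (h3 : ∀ k l, (∀ a ∈ 𝒱, a (Additive.ofMul (lam k)) = a (Additive.ofMul (lam l))) →
      lam k ^ m = lam l ^ m) (P : End K X)
    (hP : ∀ x ∈ lieT R χ, x * x = (1 / 4 : K) • 1 → P * x = x * P) :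
    P * R (F ^ m) = R (F ^ m) * P := by
  have key : ∀ k l, b.repr (P (b k)) l ≠ 0 → lam k ^ m = lam l ^ m := by
    intro k l hkl
    refine h3 k l fun a ha => ?_
    have hx := Data.Y_mem (R := R) (χ := χ) (b := b) hF (h1 a ha)
    have hxx : dg b (fun k => ((a (Additive.ofMul (lam k)) - 1 / 2 : ℚ) : K)) *
        dg b (fun k => ((a (Additive.ofMul (lam k)) - 1 / 2 : ℚ) : K)) = (1 / 4 : K) • 1 := by
      refine b.ext fun k => ?_
      rw [Module.End.mul_apply, dg_basis, map_smul, dg_basis, smul_smul, LinearMap.smul_apply,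
        Module.End.one_apply]
      congr 1
      rcases h2 a ha k with h | h
      · rw [h]
        norm_num
      · rw [h]
        norm_num
    have h4 := congrArg (fun Y : End K X => b.repr (Y (b k)) l) (hP _ hx hxx)
    have hrep : ∀ (t : ι → K) (u : X), b.repr (dg b t u) l = b.repr u l * t l := by
      intro t u
      have h5 : dg b t u = ∑ k, (b.repr u k * t k) • b k := by
        conv_lhs => rw [← b.sum_repr u]
        rw [map_sum]
        refine Finset.sum_congr rfl fun k _ => ?_
        rw [map_smul, dg_basis, smul_smul]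
      rw [h5, Basis.repr_sum_self]
    simp only [Module.End.mul_apply] at h4
    rw [hrep, dg_basis, map_smul, map_smul, Finsupp.smul_apply, smul_eq_mul] at h4
    have h5 : b.repr (P (b k)) l * (((a (Additive.ofMul (lam k)) - 1 / 2 : ℚ) : K) -
        ((a (Additive.ofMul (lam l)) - 1 / 2 : ℚ) : K)) = 0 := by linear_combination h4
    have h6 := sub_eq_zero.1 ((mul_eq_zero.1 h5).resolve_left hkl)
    have h7 : a (Additive.ofMul (lam k)) - 1 / 2 = a (Additive.ofMul (lam l)) - 1 / 2 := by
      exact_mod_cast h6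
    linarith
  have hpow' : ∀ (n : ℕ) (k : ι), R (F ^ n) (b k) = ((lam k ^ n : Kˣ) : K) • b k := by
    intro n
    induction n with
    | zero => intro k; simp
    | succ n ih =>
      intro k
      rw [pow_succ, map_mul, Module.End.mul_apply, hF, map_smul, ih, smul_smul, pow_succ]
      push_cast
      rw [mul_comm]
  have hpow := hpow' m
  refine b.ext fun k => ?_
  rw [Module.End.mul_apply, Module.End.mul_apply, hpow, map_smul]
  conv_rhs => rw [← b.sum_repr (P (b k))]
  conv_lhs => rw [← b.sum_repr (P (b k))]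
  rw [map_sum, Finset.smul_sum]
  refine Finset.sum_congr rfl fun l _ => ?_
  rw [map_smul, hpow, smul_comm]
  by_cases h0 : b.repr (P (b k)) l = 0
  · rw [h0, zero_smul, zero_smul]
  · rw [key k l h0]

end Pool.Agent.Y131.SL
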