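import Pool.Agent.Y649.ETR.Stm

/-! # ETR-FSD: for a formally self-dual scheme the valencies are the multiplicities

The proof is adapted from the lemma fsd_valency of the starting file. -/

set_option autoImplicit false

namespace Pool.Agent.Y131.ETRFSD

open Finset Pool.Agent.Results.MP_44674b_co.WreathExact Pool.Agent.Y649.ETR

variable {X : Type} [Fintype X] [DecidableEq X] {d : ℕ}

lemma mul_formula (c : X → X → Fin (d + 1)) {f g : Matrix X X ℂ} {φ ψ : Fin (d + 1) → ℂ}
    (hf : ∀ x y, f x y = φ (c x y)) (hg : ∀ x y, g x y = ψ (c x y)) (x y : X) :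
    (f * g) x y = ∑ i, ∑ j, φ i * ψ j * ((univ.filter fun z => c x z = i ∧ c z y = j).card : ℂ) := by
  rw [Matrix.mul_apply]
  have h1 : ∀ z, f x z * g z y = ∑ i, ∑ j, φ i * ψ j * (if c x z = i ∧ c z y = j then 1 else 0) := by
    intro z
    rw [hf, hg, Finset.sum_eq_single (c x z), Finset.sum_eq_single (c z y)]
    · simp
    · intro j _ hj
      rw [if_neg (fun h => hj h.2.symm), mul_zero]
    · intro h; exact absurd (Finset.mem_univ _) h
    · intro i _ hi
      refine Finset.sum_eq_zero fun j _ => ?_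
      rw [if_neg (fun h => hi h.1.symm), mul_zero]
    · intro h; exact absurd (Finset.mem_univ _) h
  rw [Finset.sum_congr rfl fun z _ => h1 z, Finset.sum_comm]
  refine Finset.sum_congr rfl fun i _ => ?_
  rw [Finset.sum_comm]
  refine Finset.sum_congr rfl fun j _ => ?_
  rw [← Finset.mul_sum, Finset.sum_boole]

lemma mul_dep (S : SymScheme X d) {f g : Matrix X X ℂ} {φ ψ : Fin (d + 1) → ℂ}
    (hf : ∀ x y, f x y = φ (S.c x y)) (hg : ∀ x y, g x y = ψ (S.c x y)) {x y x' y' : X}
    (h : S.c x y = S.c x' y') : (f * g) x y = (f * g) x' y' := by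
  rw [mul_formula S.c hf hg, mul_formula S.c hf hg]
  refine Finset.sum_congr rfl fun i _ => Finset.sum_congr rfl fun j _ => ?_
  rw [S.regular i j x y x' y' h]

lemma bm_mul' (S : SymScheme X d) {f g : Matrix X X ℂ}
    (hf : f ∈ boseMesner S.c) (hg : g ∈ boseMesner S.c) :
    f * g ∈ boseMesner S.c ∧ f * g = g * f := by
  obtain ⟨φ, hφ⟩ := bm_iff.mp hf
  obtain ⟨ψ, hψ⟩ := bm_iff.mp hg
  constructor
  · choose a b hab using S.surj
    refine bm_iff.mpr ⟨fun i => (f * g) (a i) (b i), fun x y => ?_⟩
    exact mul_dep S hφ hψ (hab _).symm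
  · ext x y
    rw [mul_dep S hφ hψ (S.symm x y), Matrix.mul_apply, Matrix.mul_apply]
    refine Finset.sum_congr rfl fun z _ => ?_
    rw [hφ, hψ, hψ, hφ, S.symm y z, S.symm z x, mul_comm]

/-- the general facts on multiplication (S_MUL) -/
theorem mul : S_MUL := fun _ _ _ _ S _ _ hf hg => bm_mul' S hf hg

theorem main : S_FSD := by
  intro X _ _ d S hF
  obtain ⟨σ, E, P, Q, hinj, hprim, hE0, hA, hE, hPQ⟩ := hF
  subst hPQ
  obtain ⟨x0, -, -⟩ := S.surj 0
  have hN : (Fintype.card X : ℂ) ≠ 0 := by
    have : 0 < Fintype.card X := Fintype.card_pos_iff.mpr ⟨x0⟩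
    exact_mod_cast this.ne'
  have hPE : ∀ i, S.IsPrimitiveIdempotent (E i) := fun i => (hprim _).mpr ⟨i, rfl⟩
  have hBM : ∀ i, E i ∈ boseMesner S.c := fun i => (hPE i).1
  -- orthogonality
  have orth : ∀ i j, i ≠ j → E i * E j = 0 := by
    intro i j hij
    have hcomm := (bm_mul' S (hBM i) (hBM j)).2
    have hmem := (bm_mul' S (hBM i) (hBM j)).1
    have hid : (E i * E j) * (E i * E j) = E i * E j := by
      calc (E i * E j) * (E i * E j) = E i * (E j * E i) * E j := by
            simp only [mul_assoc]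
        _ = (E i * E i) * (E j * E j) := by rw [← hcomm]; simp only [mul_assoc]
        _ = E i * E j := by rw [(hPE i).2.1, (hPE j).2.1]
    have h1 := (hPE i).2.2.2 _ hmem hid (by rw [← mul_assoc, (hPE i).2.1])
    have h2 := (hPE j).2.2.2 _ hmem hid (by
      rw [hcomm, ← mul_assoc, (hPE j).2.1])
    rcases h1 with h1 | h1
    · exact h1
    rcases h2 with h2 | h2
    · exact h2
    exact absurd (hinj (h1.symm.trans h2)) hij
  -- first column of `P`
  have hP0 : ∀ j, P j 0 = 1 := by
    intro j
    obtain ⟨a, b, hab⟩ := S.surj (σ j)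
    have h1 := congrFun (congrFun (hE0.symm.trans (hE 0)) a) b
    simp only [Matrix.smul_apply, smul_eq_mul, Matrix.sum_apply, adj, hab] at h1
    have h2 : (1 : ℂ) = ∑ k, P k 0 * (if σ j = σ k then 1 else 0) :=
      mul_left_cancel₀ (inv_ne_zero hN) h1
    simp only [EmbeddingLike.apply_eq_iff_eq, mul_ite, mul_one, mul_zero,
      Finset.sum_ite_eq, Finset.mem_univ, if_true] at h2
    exact h2.symm
  have hsum : adj S.c (σ 0) = ∑ j, E j := by
    rw [hA 0]; exact Finset.sum_congr rfl fun j _ => by rw [hP0, one_smul]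
  have hI : adj S.c 0 = (1 : Matrix X X ℂ) := by
    ext a b
    simp only [adj, Matrix.one_apply, S.diag]
  have hsumE : ∀ k, (∑ j, E j) * E k = E k := by
    intro k
    rw [Finset.sum_mul, Finset.sum_eq_single k]
    · exact (hPE k).2.1
    · intro j _ hj; exact orth j k hj
    · intro hk; exact absurd (Finset.mem_univ k) hk
  have hone : adj S.c (σ 0) = 1 := by
    have h1 : (1 : Matrix X X ℂ) = ∑ j, P j (σ.symm 0) • E j := by
      rw [← hI, ← hA (σ.symm 0), Equiv.apply_symm_apply]
    calc adj S.c (σ 0) = (∑ j, E j) * 1 := by rw [mul_one, hsum]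
      _ = (∑ j, E j) * ∑ j, P j (σ.symm 0) • E j := by rw [← h1]
      _ = ∑ j, P j (σ.symm 0) • E j := by
          rw [Finset.mul_sum]
          exact Finset.sum_congr rfl fun k _ => by rw [mul_smul_comm, hsumE]
      _ = 1 := h1.symm
  have hσ0 : σ 0 = 0 := by
    obtain ⟨a, b, hab⟩ := S.surj (σ 0)
    have h1 := congrFun (congrFun hone a) b
    simp only [adj, hab, if_true, Matrix.one_apply] at h1
    by_cases hxy : a = b
    · rw [← hab]; exact (S.diag a b).mpr hxy
    · rw [if_neg hxy] at h1; exact absurd h1 one_ne_zero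
  refine ⟨σ, E, hinj, hprim, hE0, hσ0, fun i x => ?_⟩
  -- trace
  have htr : Matrix.trace (E i) = P 0 i := by
    rw [hE i, Matrix.trace_smul, Matrix.trace_sum]
    have : ∀ j, Matrix.trace (P j i • adj S.c (σ j)) =
        if j = 0 then P 0 i * (Fintype.card X : ℂ) else 0 := by
      intro j
      rw [Matrix.trace_smul, smul_eq_mul]
      by_cases hj : j = 0
      · subst hj
        rw [if_pos rfl, hσ0, hI, Matrix.trace_one]
      · rw [if_neg hj]
        have : Matrix.trace (adj S.c (σ j)) = 0 := by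
          rw [Matrix.trace]
          apply Finset.sum_eq_zero
          intro a _
          simp only [Matrix.diag_apply, adj]
          rw [if_neg]
          rw [(S.diag a a).mpr rfl]
          intro h0
          exact hj (σ.injective (h0.symm.trans hσ0.symm))
        rw [this, mul_zero]
    rw [Finset.sum_congr rfl fun j _ => this j, Finset.sum_ite_eq' Finset.univ 0,
      if_pos (Finset.mem_univ _), smul_eq_mul]
    field_simp
  -- valency
  rw [htr]
  have hmulJ : ∀ j, ∑ b, E j x b = if j = 0 then 1 else 0 := by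
    intro j
    have h1 : (E j * E 0) x x = (Fintype.card X : ℂ)⁻¹ * ∑ b, E j x b := by
      rw [Matrix.mul_apply, Finset.mul_sum]
      apply Finset.sum_congr rfl
      intro b _
      have h3 : E 0 b x = (Fintype.card X : ℂ)⁻¹ := by
        rw [hE0]; simp
      rw [h3, mul_comm]
    by_cases hj : j = 0
    · subst hj
      rw [(hPE 0).2.1] at h1
      rw [if_pos rfl]
      have h2 : E 0 x x = (Fintype.card X : ℂ)⁻¹ := by
        rw [hE0]; simp
      rw [h2] at h1
      have := mul_left_cancel₀ (inv_ne_zero hN) ((mul_one _).trans h1)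
      exact this.symm
    · rw [if_neg hj]
      rw [orth j 0 hj] at h1
      simp only [Matrix.zero_apply] at h1
      rcases mul_eq_zero.mp h1.symm with h2 | h2
      · exact absurd h2 (inv_ne_zero hN)
      · exact h2
  have h1 : ∑ b, adj S.c (σ i) x b = P 0 i := by
    rw [hA i]
    simp only [Matrix.sum_apply, Matrix.smul_apply, smul_eq_mul]
    rw [Finset.sum_comm]
    rw [Finset.sum_congr rfl fun j _ => by rw [← Finset.mul_sum, hmulJ j]]
    simp
  rw [← h1]
  simp only [adj, Finset.sum_boole]
  rfl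

end Pool.Agent.Y131.ETRFSD
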