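import Pool.Agent.Y131.ETRFSD

/-! # ETR-WNOT: the wreath product with a larger complete graph is not formally self-dual -/

set_option autoImplicit false

namespace Pool.Agent.Y131.ETRWNOT

open Finset Pool.Agent.Results.MP_44674b_co.WreathExact Pool.Agent.Y649.ETR

variable {X Y : Type} [Fintype X] [DecidableEq X] [Fintype Y] [DecidableEq Y] {d : ℕ}

/-- the projection on the functions of the second coordinate -/
noncomputable def F (X Y : Type) [Fintype X] [DecidableEq Y] : Matrix (X × Y) (X × Y) ℂ :=
  fun p q => if p.2 = q.2 then (Fintype.card X : ℂ)⁻¹ else 0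

lemma Jn_apply (Z : Type) [Fintype Z] (p q : Z) : Jn Z p q = (Fintype.card Z : ℂ)⁻¹ := by
  simp [Jn]

lemma sum_prod (f : X × Y → ℂ) : ∑ r, f r = ∑ y, ∑ x, f (x, y) := by
  rw [Fintype.sum_prod_type, Finset.sum_comm]

lemma mul_F (M : Matrix (X × Y) (X × Y) ℂ) (p q : X × Y) :
    (M * F X Y) p q = (Fintype.card X : ℂ)⁻¹ * ∑ x, M p (x, q.2) := by
  rw [Matrix.mul_apply, sum_prod, Finset.sum_eq_single q.2]
  · rw [Finset.mul_sum]
    refine Finset.sum_congr rfl fun x _ => ?_
    simp only [F, if_true]
    ring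
  · intro y _ hy
    refine Finset.sum_eq_zero fun x _ => ?_
    simp only [F]
    rw [if_neg hy, mul_zero]
  · intro h; exact absurd (Finset.mem_univ _) h

lemma mul_J (M : Matrix (X × Y) (X × Y) ℂ) (p q : X × Y) :
    (M * Jn (X × Y)) p q = (Fintype.card (X × Y) : ℂ)⁻¹ * ∑ r, M p r := by
  rw [Matrix.mul_apply, Finset.mul_sum]
  refine Finset.sum_congr rfl fun x _ => ?_
  rw [Jn_apply]
  ring

section
variable (hn : (Fintype.card X : ℂ) ≠ 0) (hm : (Fintype.card Y : ℂ) ≠ 0)
include hn

lemma FF : F X Y * F X Y = F X Y := by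
  ext p q
  rw [mul_F]
  simp only [F]
  split_ifs
  · rw [Finset.sum_const, Finset.card_univ, nsmul_eq_mul, mul_inv_cancel₀ hn, mul_one]
  · rw [Finset.sum_const_zero, mul_zero]

include hm

lemma hN : (Fintype.card (X × Y) : ℂ) ≠ 0 := by
  rw [Fintype.card_prod]
  push_cast
  exact mul_ne_zero hn hm

lemma JJ : Jn (X × Y) * Jn (X × Y) = Jn (X × Y) := by
  have h := hN (X := X) (Y := Y) hn hm
  ext p q
  rw [mul_J]
  simp only [Jn_apply, Finset.sum_const, Finset.card_univ, nsmul_eq_mul]
  field_simp

lemma FJ : F X Y * Jn (X × Y) = Jn (X × Y) := by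
  have h := hN (X := X) (Y := Y) hn hm
  ext p q
  rw [mul_J, sum_prod, Jn_apply, Finset.sum_eq_single p.2]
  · simp only [F, if_true, Finset.sum_const, Finset.card_univ, nsmul_eq_mul]
    field_simp
  · intro y _ hy
    refine Finset.sum_eq_zero fun x _ => ?_
    simp only [F]
    rw [if_neg (fun h => hy h.symm)]
  · intro h; exact absurd (Finset.mem_univ _) h

lemma JF : Jn (X × Y) * F X Y = Jn (X × Y) := by
  have h := hN (X := X) (Y := Y) hn hm
  ext p q
  rw [mul_F, Jn_apply]
  simp only [Jn_apply, Finset.sum_const, Finset.card_univ, nsmul_eq_mul]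
  field_simp

lemma traceF : Matrix.trace (F X Y) = (Fintype.card Y : ℂ) := by
  rw [Matrix.trace]
  simp only [Matrix.diag_apply, F, if_true, Finset.sum_const, Finset.card_univ, nsmul_eq_mul,
    Fintype.card_prod]
  push_cast
  field_simp

lemma traceJ : Matrix.trace (Jn (X × Y)) = 1 := by
  have h := hN (X := X) (Y := Y) hn hm
  rw [Matrix.trace]
  simp only [Matrix.diag_apply, Jn_apply, Finset.sum_const, Finset.card_univ, nsmul_eq_mul]
  field_simp

end

lemma one_of_ne {T : SymScheme Y 1} {y y' : Y} (h : y ≠ y') : T.c y y' = 1 := by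
  have h1 : T.c y y' ≠ 0 := fun h0 => h ((T.diag y y').1 h0)
  have h2 : ∀ a : Fin (1 + 1), a ≠ 0 → a = 1 := by decide
  exact h2 _ h1

lemma val_const (S : SymScheme X d) (x x' : X) (i : Fin (d + 1)) :
    (univ.filter fun z => S.c x z = i).card = (univ.filter fun z => S.c x' z = i).card := by
  have h := S.regular i i x x x' x' (by rw [(S.diag x x).2 rfl, (S.diag x' x').2 rfl])
  have e : ∀ x, (univ.filter fun z => S.c x z = i ∧ S.c z x = i) =
      (univ.filter fun z => S.c x z = i) := by
    intro x
    ext z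
    simp only [Finset.mem_filter, Finset.mem_univ, true_and]
    rw [S.symm z x]
    exact and_self_iff
  rw [e, e] at h
  exact h

lemma sum_const' (S : SymScheme X d) (x x' : X) (φ : Fin (d + 1) → ℂ) :
    ∑ z, φ (S.c x z) = ∑ z, φ (S.c x' z) := by
  have e : ∀ x, ∑ z, φ (S.c x z) = ∑ i, ((univ.filter fun z => S.c x z = i).card : ℂ) * φ i := by
    intro x
    rw [← Finset.sum_fiberwise (s := univ) (g := fun z => S.c x z) (f := fun z => φ (S.c x z))]
    refine Finset.sum_congr rfl fun i _ => ?_
    rw [Finset.sum_congr rfl (g := fun _ => φ i)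
      (fun z hz => by rw [(Finset.mem_filter.1 hz).2]), Finset.sum_const, nsmul_eq_mul]
  rw [e, e]
  exact Finset.sum_congr rfl fun i _ => by rw [val_const S x x' i]

theorem main (hfsd : S_FSD) : S_WNOT := by
  intro X Y _ _ _ _ d S T R hR hX hXY hF
  have hnpos : 0 < Fintype.card X := by omega
  have hmpos : 0 < Fintype.card Y := by omega
  have hn : (Fintype.card X : ℂ) ≠ 0 := by exact_mod_cast hnpos.ne'
  have hm : (Fintype.card Y : ℂ) ≠ 0 := by exact_mod_cast hmpos.ne'
  obtain ⟨x0⟩ := Fintype.card_pos_iff.1 hnpos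
  obtain ⟨y0⟩ := Fintype.card_pos_iff.1 hmpos
  -- the colours
  have hin : ∀ p q : X × Y, p.2 = q.2 → R.c p q = Fin.castLE (by omega) (S.c p.1 q.1) := by
    intro p q h
    rw [hR]
    simp only [wrc]
    rw [if_pos h]
  have hout : ∀ p q : X × Y, p.2 ≠ q.2 → R.c p q = Fin.last (d + 1) := by
    intro p q h
    rw [hR]
    simp only [wrc]
    rw [if_neg h]
    apply Fin.ext
    have h1 : (T.c p.2 q.2).val = 1 := by rw [one_of_ne h]; rfl
    simp only [h1, Fin.val_last]
  have hnl : ∀ p q : X × Y, p.2 = q.2 → R.c p q ≠ Fin.last (d + 1) := by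
    intro p q h h'
    rw [hin p q h] at h'
    have := congrArg Fin.val h'
    have h2 := (S.c p.1 q.1).isLt
    simp at this
    omega
  set E : Matrix (X × Y) (X × Y) ℂ := F X Y - Jn (X × Y) with hE
  have hFm : F X Y ∈ boseMesner R.c := by
    refine bm_iff.mpr ⟨fun k => if k = Fin.last (d + 1) then 0 else (Fintype.card X : ℂ)⁻¹,
      fun p q => ?_⟩
    by_cases h : p.2 = q.2
    · simp only [F]
      rw [if_pos h, if_neg (hnl p q h)]
    · simp only [F]
      rw [if_neg h, if_pos (hout p q h)]
  have hJm : Jn (X × Y) ∈ boseMesner R.c :=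
    bm_iff.mpr ⟨fun _ => (Fintype.card (X × Y) : ℂ)⁻¹, fun p q => Jn_apply _ p q⟩
  have hEm : E ∈ boseMesner R.c := Submodule.sub_mem _ hFm hJm
  have hFE : F X Y * E = E := by rw [hE, mul_sub, FF hn, FJ hn hm]
  have hJE : Jn (X × Y) * E = 0 := by rw [hE, mul_sub, JF hn hm, JJ hn hm, sub_self]
  have hEE : E * E = E := by
    conv_lhs => rw [hE]
    rw [sub_mul, ← hE, hFE, hJE, sub_zero]
  have htr : Matrix.trace E = (Fintype.card Y : ℂ) - 1 := by
    rw [hE, Matrix.trace_sub, traceF hn hm, traceJ hn hm]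
  have hE0 : E ≠ 0 := by
    intro h
    rw [h, Matrix.trace_zero] at htr
    have h2 : (Fintype.card Y : ℂ) = 1 := by linear_combination -htr
    have h3 : Fintype.card Y = 1 := by exact_mod_cast h2
    omega
  have hscal : ∀ M ∈ boseMesner R.c, ∃ a : ℂ, M * E = a • E := by
    intro M hM
    obtain ⟨φ, hφ⟩ := bm_iff.mp hM
    -- `M * F = a F + b J`, `M * J = r J`
    set κ := ∑ x, φ (Fin.castLE (by omega) (S.c x0 x)) with hκ
    have h1 : ∃ a b : ℂ, M * F X Y = a • F X Y + b • Jn (X × Y) := by
      refine ⟨κ - Fintype.card X * φ (Fin.last (d + 1)),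
        Fintype.card (X × Y) * φ (Fin.last (d + 1)), ?_⟩
      ext p q
      have hNN := hN (X := X) (Y := Y) hn hm
      rw [mul_F, Matrix.add_apply, Matrix.smul_apply, Matrix.smul_apply, Jn_apply]
      simp only [smul_eq_mul, F]
      by_cases h : p.2 = q.2
      · rw [if_pos h]
        have h2 : ∑ x, M p (x, q.2) = κ := by
          rw [hκ, sum_const' S x0 p.1 (fun i => φ (Fin.castLE (by omega) i))]
          refine Finset.sum_congr rfl fun x _ => ?_
          rw [hφ, hin p (x, q.2) h]
        rw [h2]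
        field_simp
        ring
      · rw [if_neg h]
        have h2 : ∑ x, M p (x, q.2) = Fintype.card X * φ (Fin.last (d + 1)) := by
          rw [Finset.sum_congr rfl (g := fun _ => φ (Fin.last (d + 1)))
            (fun x _ => by rw [hφ, hout p (x, q.2) h]), Finset.sum_const, Finset.card_univ,
            nsmul_eq_mul]
        rw [h2]
        field_simp
        ring
    obtain ⟨a, b, hab⟩ := h1
    refine ⟨a, ?_⟩
    have h3 : M * E = (M * F X Y) * E := by rw [mul_assoc, hFE]
    rw [h3, hab, add_mul, smul_mul_assoc, smul_mul_assoc, hFE, hJE, smul_zero, add_zero]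
  have hprimE : R.IsPrimitiveIdempotent E := by
    refine ⟨hEm, hEE, hE0, fun f hf hff hEf => ?_⟩
    have hc := (ETRFSD.bm_mul' R hEm hf).2
    obtain ⟨a, ha⟩ := hscal f hf
    have hfE : f = a • E := by rw [← ha, ← hc, hEf]
    have h1 : (a * a) • E = a • E := by
      have h2 := hff
      rw [hfE, smul_mul_smul_comm, hEE] at h2
      exact h2
    have h2 : (a * a - a) • E = 0 := by rw [sub_smul, h1, sub_self]
    rcases smul_eq_zero.1 h2 with h3 | h3
    · have h4 : a * (a - 1) = 0 := by linear_combination h3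
      rcases mul_eq_zero.1 h4 with h5 | h5
      · left; rw [hfE, h5, zero_smul]
      · right; rw [hfE, sub_eq_zero.1 h5, one_smul]
    · exact absurd h3 hE0
  obtain ⟨σ, E', hinj, hprim, hE'0, hσ0, hval⟩ := hfsd (X × Y) (d + 1) R hF
  obtain ⟨i, hi⟩ := (hprim E).1 hprimE
  have hi0 : i ≠ 0 := by
    rintro rfl
    have h1 : Matrix.trace E = 1 := by rw [← hi, hE'0, traceJ hn hm]
    rw [htr] at h1
    have h2 : (Fintype.card Y : ℂ) = 2 := by linear_combination h1
    have h3 : Fintype.card Y = 2 := by exact_mod_cast h2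
    omega
  have hk0 : σ i ≠ 0 := fun h => hi0 (σ.injective (h.trans hσ0.symm))
  have hv := hval i (x0, y0)
  rw [hi, htr] at hv
  have hv' : val R.c (x0, y0) (σ i) + 1 = Fintype.card Y := by
    have : ((val R.c (x0, y0) (σ i) + 1 : ℕ) : ℂ) = (Fintype.card Y : ℂ) := by
      push_cast
      rw [hv]
      ring
    exact_mod_cast this
  by_cases hl : σ i = Fin.last (d + 1)
  · have h1 : (univ : Finset X) ×ˢ (univ.erase y0) ⊆
        univ.filter fun q => R.c (x0, y0) q = σ i := by
      intro q hq
      rw [Finset.mem_product] at hq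
      have h2 := (Finset.mem_erase.1 hq.2).1
      rw [Finset.mem_filter]
      exact ⟨Finset.mem_univ _, by rw [hl]; exact hout _ _ (fun h => h2 h.symm)⟩
    have h2 := Finset.card_le_card h1
    rw [Finset.card_product, Finset.card_erase_of_mem (Finset.mem_univ _), Finset.card_univ,
      Finset.card_univ] at h2
    have h3 : (univ.filter fun q => R.c (x0, y0) q = σ i).card = Fintype.card Y - 1 := by
      have : (univ.filter fun q => R.c (x0, y0) q = σ i).card = val R.c (x0, y0) (σ i) := rfl
      omega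
    rw [h3] at h2
    have h4 : 2 * (Fintype.card Y - 1) ≤ Fintype.card X * (Fintype.card Y - 1) :=
      Nat.mul_le_mul_right _ hX
    omega
  · have h1 : (univ.filter fun q => R.c (x0, y0) q = σ i).card ≤ (univ.erase x0).card := by
      apply Finset.card_le_card_of_injOn (fun q => q.1)
      · intro q hq
        have hq' := (Finset.mem_filter.1 hq).2
        have h2 : y0 = q.2 := by
          by_contra h
          exact hl (hq'.symm.trans (hout _ _ h))
        rw [Finset.mem_coe, Finset.mem_erase]
        refine ⟨fun h3 => hk0 ?_, Finset.mem_univ _⟩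
        rw [← hq']
        exact (R.diag _ _).2 (Prod.ext h3.symm h2)
      · intro q hq q' hq' h
        have h2 : y0 = q.2 := by
          by_contra h
          exact hl ((Finset.mem_filter.1 hq).2.symm.trans (hout _ _ h))
        have h3 : y0 = q'.2 := by
          by_contra h
          exact hl ((Finset.mem_filter.1 hq').2.symm.trans (hout _ _ h))
        exact Prod.ext h (h2.symm.trans h3)
    rw [Finset.card_erase_of_mem (Finset.mem_univ _), Finset.card_univ] at h1
    have h3 : (univ.filter fun q => R.c (x0, y0) q = σ i).card = val R.c (x0, y0) (σ i) := rfl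
    omega

end Pool.Agent.Y131.ETRWNOT
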