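import Pool.Agent.Y131.ETRFSD

/-! # ETR-WR and ETR-WSTAR: wreath products of symmetric schemes -/

set_option autoImplicit false

namespace Pool.Agent.Y131.ETRWR

open Finset Pool.Agent.Results.MP_44674b_co.WreathExact Pool.Agent.Y649.ETR

variable {X Y : Type} [Fintype X] [DecidableEq X] [Fintype Y] [DecidableEq Y] {d e : ℕ}

/-- block diagonal matrices -/
def inM (Y : Type) [DecidableEq Y] (L : Matrix X X ℂ) : Matrix (X × Y) (X × Y) ℂ :=
  fun p q => if p.2 = q.2 then L p.1 q.1 else 0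

/-- matrices depending on the second coordinates only -/
def outM (X : Type) (N : Matrix Y Y ℂ) : Matrix (X × Y) (X × Y) ℂ := fun p q => N p.2 q.2

lemma sum_prod (f : X × Y → ℂ) : ∑ r, f r = ∑ y, ∑ x, f (x, y) := by
  rw [Fintype.sum_prod_type, Finset.sum_comm]

/-- equality of colours of the wreath product -/
lemma wrc_eq (S : SymScheme X d) (T : SymScheme Y e) {p q p' q' : X × Y}
    (h : wrc S.c T.c p q = wrc S.c T.c p' q') :
    (p.2 = q.2 ↔ p'.2 = q'.2) ∧ T.c p.2 q.2 = T.c p'.2 q'.2 ∧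
      (p.2 = q.2 → S.c p.1 q.1 = S.c p'.1 q'.1) := by
  have hv := congrArg Fin.val h
  simp only [wrc] at hv
  have hpos : ∀ y y' : Y, y ≠ y' → 0 < (T.c y y').val := by
    intro y y' hy
    rcases Nat.eq_zero_or_pos (T.c y y').val with h0 | h0
    · exact absurd ((T.diag y y').1 (Fin.ext h0)) hy
    · exact h0
  have l1 := (S.c p.1 q.1).isLt
  have l2 := (S.c p'.1 q'.1).isLt
  by_cases h1 : p.2 = q.2
  · by_cases h2 : p'.2 = q'.2
    · rw [if_pos h1, if_pos h2] at hv
      refine ⟨by simp [h1, h2], ?_, fun _ => Fin.ext hv⟩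
      rw [(T.diag _ _).2 h1, (T.diag _ _).2 h2]
    · rw [if_pos h1, if_neg h2] at hv
      have := hpos _ _ h2
      simp only [Fin.val_castLE] at hv
      omega
  · by_cases h2 : p'.2 = q'.2
    · rw [if_neg h1, if_pos h2] at hv
      have := hpos _ _ h1
      simp only [Fin.val_castLE] at hv
      omega
    · rw [if_neg h1, if_neg h2] at hv
      refine ⟨by simp [h1, h2], Fin.ext (by simp only at hv; omega), fun h3 => absurd h3 h1⟩

lemma eq_wrc (S : SymScheme X d) (T : SymScheme Y e) {p q p' q' : X × Y}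
    (h : T.c p.2 q.2 = T.c p'.2 q'.2) (h' : p.2 = q.2 → S.c p.1 q.1 = S.c p'.1 q'.1) :
    wrc S.c T.c p q = wrc S.c T.c p' q' := by
  by_cases h1 : p.2 = q.2
  · have h2 : p'.2 = q'.2 := by
      rw [← T.diag, ← h, T.diag]; exact h1
    simp only [wrc]
    rw [if_pos h1, if_pos h2, h' h1]
  · have h2 : ¬ p'.2 = q'.2 := by
      rw [← T.diag, ← h, T.diag]; exact h1
    simp only [wrc]
    rw [if_neg h1, if_neg h2]
    apply Fin.ext
    simp only [h]

lemma bm_dep {Z : Type} [Fintype Z] [DecidableEq Z] {m : ℕ} {c : Z → Z → Fin (m + 1)}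
    (M : Matrix Z Z ℂ) : M ∈ boseMesner c ↔
      ∀ x y x' y', c x y = c x' y' → M x y = M x' y' := by
  classical
  constructor
  · intro h x y x' y' hc
    obtain ⟨φ, hφ⟩ := bm_iff.mp h
    rw [hφ, hφ, hc]
  · intro h
    refine bm_iff.mpr ⟨fun i => if hi : ∃ p : Z × Z, c p.1 p.2 = i then
      M hi.choose.1 hi.choose.2 else 0, fun x y => ?_⟩
    have hi : ∃ p : Z × Z, c p.1 p.2 = c x y := ⟨(x, y), rfl⟩
    simp only
    rw [dif_pos hi]
    exact h _ _ _ _ hi.choose_spec.symm

lemma wd_dep {Z : Type} [Fintype Z] [DecidableEq Z] {m : ℕ} {c : Z → Z → Fin (m + 1)}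
    (M : Z → Z → Z → ℂ) : M ∈ WDelta c ↔
      ∀ x y z x' y' z', c x y = c x' y' → c x z = c x' z' → c y z = c y' z' →
        M x y z = M x' y' z' := by
  classical
  constructor
  · intro h x y z x' y' z' h1 h2 h3
    obtain ⟨φ, hφ⟩ := wdelta_iff.mp h
    rw [hφ, hφ, h1, h2, h3]
  · intro h
    refine wdelta_iff.mpr ⟨fun i j k => if hi : ∃ p : Z × Z × Z, c p.1 p.2.1 = i ∧
      c p.1 p.2.2 = j ∧ c p.2.1 p.2.2 = k then
      M hi.choose.1 hi.choose.2.1 hi.choose.2.2 else 0, fun x y z => ?_⟩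
    have hi : ∃ p : Z × Z × Z, c p.1 p.2.1 = c x y ∧ c p.1 p.2.2 = c x z ∧
      c p.2.1 p.2.2 = c y z := ⟨(x, y, z), rfl, rfl, rfl⟩
    simp only
    rw [dif_pos hi]
    have hs := hi.choose_spec
    exact h _ _ _ _ _ _ hs.1.symm hs.2.1.symm hs.2.2.symm

/-- the Bose-Mesner algebra of the wreath product -/
lemma bm_wrc (S : SymScheme X d) (T : SymScheme Y e) (M : Matrix (X × Y) (X × Y) ℂ) :
    M ∈ boseMesner (wrc S.c T.c) ↔ ∃ L ∈ boseMesner S.c, ∃ N ∈ boseMesner T.c,
      M = inM Y L + outM X N := by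
  constructor
  · intro hM
    rw [bm_dep] at hM
    obtain ⟨x0, -, -⟩ := S.surj 0
    obtain ⟨y0, -, -⟩ := T.surj 0
    refine ⟨fun x x' => M (x, y0) (x', y0), ?_, fun y y' => if y = y' then 0 else
      M (x0, y) (x0, y'), ?_, ?_⟩
    · rw [bm_dep]
      intro x y x' y' h
      exact hM _ _ _ _ (eq_wrc S T (by rw [(T.diag _ _).2 rfl]) fun _ => h)
    · rw [bm_dep]
      intro x y x' y' h
      have h1 : x = y ↔ x' = y' := by rw [← T.diag, ← T.diag, h]
      show (if x = y then (0 : ℂ) else M (x0, x) (x0, y)) =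
        (if x' = y' then (0 : ℂ) else M (x0, x') (x0, y'))
      by_cases h2 : x = y
      · rw [if_pos h2, if_pos (h1.1 h2)]
      · rw [if_neg h2, if_neg (fun h3 => h2 (h1.2 h3))]
        exact hM _ _ _ _ (eq_wrc S T h fun h3 => absurd h3 h2)
    · ext p q
      simp only [Matrix.add_apply, inM, outM]
      by_cases h : p.2 = q.2
      · rw [if_pos h, if_pos h, add_zero]
        apply hM
        apply eq_wrc S T
        · rw [(T.diag _ _).2 h, (T.diag _ _).2 rfl]
        · intro _; rfl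
      · rw [if_neg h, if_neg h, zero_add]
        apply hM
        apply eq_wrc S T
        · rfl
        · intro h3; exact absurd h3 h
  · rintro ⟨L, hL, N, hN, rfl⟩
    rw [bm_dep] at hL hN ⊢
    intro p q p' q' h
    obtain ⟨h1, h2, h3⟩ := wrc_eq S T h
    simp only [Matrix.add_apply, inM, outM]
    rw [hN _ _ _ _ h2]
    by_cases h4 : p.2 = q.2
    · rw [if_pos h4, if_pos (h1.1 h4), hL _ _ _ _ (h3 h4)]
    · rw [if_neg h4, if_neg (fun h5 => h4 (h1.2 h5))]

lemma in_mem (S : SymScheme X d) (T : SymScheme Y e) {L : Matrix X X ℂ}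
    (hL : L ∈ boseMesner S.c) : inM Y L ∈ boseMesner (wrc S.c T.c) := by
  refine (bm_wrc S T _).2 ⟨L, hL, 0, Submodule.zero_mem _, ?_⟩
  ext p q
  simp [outM]

lemma out_mem (S : SymScheme X d) (T : SymScheme Y e) {N : Matrix Y Y ℂ}
    (hN : N ∈ boseMesner T.c) : outM X N ∈ boseMesner (wrc S.c T.c) := by
  refine (bm_wrc S T _).2 ⟨0, Submodule.zero_mem _, N, hN, ?_⟩
  ext p q
  simp [inM]

lemma in_in (L L' : Matrix X X ℂ) : inM Y L * inM Y L' = inM Y (L * L') := by
  ext p q
  rw [Matrix.mul_apply, sum_prod, Finset.sum_eq_single p.2]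
  · simp only [inM, if_true]
    by_cases h : p.2 = q.2
    · rw [if_pos h, Matrix.mul_apply]
      refine Finset.sum_congr rfl fun x _ => by rw [if_pos h]
    · rw [if_neg h]
      refine Finset.sum_eq_zero fun x _ => by rw [if_neg h, mul_zero]
  · intro y _ hy
    refine Finset.sum_eq_zero fun x _ => ?_
    simp only [inM]
    rw [if_neg (fun h => hy h.symm), zero_mul]
  · intro h; exact absurd (Finset.mem_univ _) h

lemma out_out (N N' : Matrix Y Y ℂ) :
    outM X N * outM X N' = (Fintype.card X : ℂ) • outM X (N * N') := by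
  ext p q
  rw [Matrix.mul_apply, sum_prod, Matrix.smul_apply]
  simp only [outM, Finset.sum_const, Finset.card_univ, nsmul_eq_mul, smul_eq_mul,
    Matrix.mul_apply]
  rw [← Finset.mul_sum]

lemma in_out {L : Matrix X X ℂ} {r : ℂ} (hr : ∀ x, ∑ x', L x x' = r) (N : Matrix Y Y ℂ) :
    inM Y L * outM X N = r • outM X N := by
  ext p q
  rw [Matrix.mul_apply, sum_prod, Matrix.smul_apply, Finset.sum_eq_single p.2]
  · simp only [inM, outM, if_true, smul_eq_mul]
    rw [← Finset.sum_mul, hr]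
  · intro y _ hy
    refine Finset.sum_eq_zero fun x _ => ?_
    simp only [inM]
    rw [if_neg (fun h => hy h.symm), zero_mul]
  · intro h; exact absurd (Finset.mem_univ _) h

lemma out_in {L : Matrix X X ℂ} {r : ℂ} (hr : ∀ x, ∑ x', L x' x = r) (N : Matrix Y Y ℂ) :
    outM X N * inM Y L = r • outM X N := by
  ext p q
  rw [Matrix.mul_apply, sum_prod, Matrix.smul_apply, Finset.sum_eq_single q.2]
  · simp only [inM, outM, if_true, smul_eq_mul]
    rw [← Finset.mul_sum, hr, mul_comm]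
  · intro y _ hy
    refine Finset.sum_eq_zero fun x _ => ?_
    simp only [inM]
    rw [if_neg (fun h => hy h), mul_zero]
  · intro h; exact absurd (Finset.mem_univ _) h

/-- constant row sums -/
lemma rowsum (S : SymScheme X d) {L : Matrix X X ℂ} (hL : L ∈ boseMesner S.c) :
    ∃ r : ℂ, (∀ x, ∑ x', L x x' = r) ∧ (∀ x, ∑ x', L x' x = r) := by
  obtain ⟨x0, -, -⟩ := S.surj 0
  have hJ : (fun _ _ => 1 : Matrix X X ℂ) ∈ boseMesner S.c :=
    (bm_dep _).2 fun _ _ _ _ _ => rfl
  have h1 := (ETRFSD.bm_mul' S hL hJ).1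
  rw [bm_dep] at h1
  have h2 : ∀ x, ∑ x', L x x' = ∑ x', L x0 x' := by
    intro x
    have := h1 x x x0 x0 (by rw [(S.diag _ _).2 rfl, (S.diag _ _).2 rfl])
    rw [Matrix.mul_apply, Matrix.mul_apply] at this
    simpa using this
  refine ⟨∑ x', L x0 x', h2, fun x => ?_⟩
  rw [← h2 x]
  exact Finset.sum_congr rfl fun x' _ => (bm_dep L).1 hL _ _ _ _ (S.symm _ _)

lemma wr_mul (S : SymScheme X d) (T : SymScheme Y e) {M M' : Matrix (X × Y) (X × Y) ℂ}
    (h : M ∈ boseMesner (wrc S.c T.c)) (h' : M' ∈ boseMesner (wrc S.c T.c)) :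
    M * M' ∈ boseMesner (wrc S.c T.c) := by
  obtain ⟨L, hL, N, hN, rfl⟩ := (bm_wrc S T _).1 h
  obtain ⟨L', hL', N', hN', rfl⟩ := (bm_wrc S T _).1 h'
  obtain ⟨r, hr, -⟩ := rowsum S hL
  obtain ⟨r', -, hr'⟩ := rowsum S hL'
  rw [add_mul, mul_add, mul_add, in_in, in_out hr, out_in hr', out_out]
  refine Submodule.add_mem _ (Submodule.add_mem _ ?_ ?_) (Submodule.add_mem _ ?_ ?_)
  · exact in_mem S T (ETRFSD.bm_mul' S hL hL').1
  · exact Submodule.smul_mem _ _ (out_mem S T hN')
  · exact Submodule.smul_mem _ _ (out_mem S T hN)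
  · exact Submodule.smul_mem _ _ (out_mem S T (ETRFSD.bm_mul' T hN hN').1)

lemma adj_adj {Z : Type} [Fintype Z] [DecidableEq Z] {m : ℕ} (c : Z → Z → Fin (m + 1))
    (i j : Fin (m + 1)) (x y : Z) :
    (adj c i * adj c j) x y = ((univ.filter fun z => c x z = i ∧ c z y = j).card : ℂ) := by
  rw [Matrix.mul_apply, ← Finset.sum_boole]
  refine Finset.sum_congr rfl fun z _ => ?_
  simp only [adj]
  by_cases h1 : c x z = i <;> by_cases h2 : c z y = j <;> simp [h1, h2]

theorem wr : S_WR := by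
  intro X Y _ _ _ _ d e S T
  obtain ⟨x0, -, -⟩ := S.surj 0
  obtain ⟨y0, -, -⟩ := T.surj 0
  refine ⟨⟨wrc S.c T.c, ?_, ?_, ?_, ?_⟩, rfl⟩
  · intro i
    by_cases hi : i.val < d + 1
    · obtain ⟨x, x', hx⟩ := S.surj ⟨i.val, hi⟩
      refine ⟨(x, y0), (x', y0), ?_⟩
      simp only [wrc, if_true]
      apply Fin.ext
      rw [hx]
      rfl
    · obtain ⟨y, y', hy⟩ := T.surj ⟨i.val - d, by have := i.isLt; omega⟩
      have hne : y ≠ y' := by
        intro h
        rw [(T.diag _ _).2 h] at hy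
        have := congrArg Fin.val hy
        have h9 : i.val - d = 0 := this.symm
        omega
      refine ⟨(x0, y), (x0, y'), ?_⟩
      simp only [wrc]
      rw [if_neg hne]
      apply Fin.ext
      have h1 : (T.c y y').val = i.val - d := by rw [hy]
      simp only [h1]
      omega
  · intro p q
    by_cases h : p.2 = q.2
    · simp only [wrc]
      rw [if_pos h]
      constructor
      · intro h1
        have h2 : (S.c p.1 q.1).val = 0 := by
          have := congrArg Fin.val h1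
          simpa using this
        exact Prod.ext ((S.diag _ _).1 (Fin.ext h2)) h
      · rintro rfl
        rw [(S.diag _ _).2 rfl]
        rfl
    · simp only [wrc]
      rw [if_neg h]
      constructor
      · intro h1
        have h2 : (T.c p.2 q.2).val = 0 := by
          have h9 : d + (T.c p.2 q.2).val = 0 := congrArg Fin.val h1
          omega
        exact absurd ((T.diag _ _).1 (Fin.ext h2)) h
      · rintro rfl
        exact absurd rfl h
  · intro p q
    apply eq_wrc S T (T.symm _ _)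
    intro _
    exact S.symm _ _
  · intro i j x y x' y' h
    have hm := wr_mul S T (M := adj (wrc S.c T.c) i) (M' := adj (wrc S.c T.c) j)
      (Submodule.subset_span ⟨i, rfl⟩) (Submodule.subset_span ⟨j, rfl⟩)
    have h1 := (bm_dep _).1 hm _ _ _ _ h
    rw [adj_adj, adj_adj] at h1
    exact_mod_cast h1

end Pool.Agent.Y131.ETRWR
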